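import Pool.Agent.WFS.Rot.Yq
import Pool.Agent.WFK.KoutDef

/-!
# The representatives of the rotations as group elements: class, congruence, coherence (helper94)
-/

set_option autoImplicit false
set_option linter.unusedSectionVars false

noncomputable section

namespace Pool.Agent.WFS.Rot

open Polynomial Matrix Pool.Agent.WFS Pool.Agent.WFG Pool.WFS.Nil Pool.WFS.Lad

/-- `1 + s E_01` -/
def us (s : ℤ[X]) : SL (Fin 2) ℤ[X] := xs 0 1 (by decide) s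

/-- `1 + s E_10` -/
def vs (s : ℤ[X]) : SL (Fin 2) ℤ[X] := xs 1 0 (by decide) s

/-- the third letter -/
def ls (s : ℤ[X]) : SL (Fin 2) ℤ[X] := vs 1 * us (-s) * (vs 1)⁻¹

theorem coe_us (s : ℤ[X]) : ((us s : SL (Fin 2) ℤ[X]) : Matrix (Fin 2) (Fin 2) ℤ[X]) = x12 s := by
  unfold us x12
  rw [coe_xs]
  refine Matrix.ext fun i j => ?_
  fin_cases i <;> fin_cases j <;> simp

theorem coe_vs (s : ℤ[X]) : ((vs s : SL (Fin 2) ℤ[X]) : Matrix (Fin 2) (Fin 2) ℤ[X]) = x21 s := by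
  unfold vs x21
  rw [coe_xs]
  refine Matrix.ext fun i j => ?_
  fin_cases i <;> fin_cases j <;> simp

theorem us_add (s t : ℤ[X]) : us (s + t) = us s * us t := by
  apply Subtype.ext
  rw [Matrix.SpecialLinearGroup.coe_mul, coe_us, coe_us, coe_us]
  unfold x12
  refine Matrix.ext fun i j => ?_
  fin_cases i <;> fin_cases j <;> simp [Matrix.mul_apply, Fin.sum_univ_two, add_comm]

theorem vs_add (s t : ℤ[X]) : vs (s + t) = vs s * vs t := by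
  apply Subtype.ext
  rw [Matrix.SpecialLinearGroup.coe_mul, coe_vs, coe_vs, coe_vs]
  unfold x21
  refine Matrix.ext fun i j => ?_
  fin_cases i <;> fin_cases j <;> simp [Matrix.mul_apply, Fin.sum_univ_two, add_comm]

theorem us_zero : us 0 = 1 := by
  apply Subtype.ext
  rw [Matrix.SpecialLinearGroup.coe_one, coe_us]
  unfold x12
  refine Matrix.ext fun i j => ?_
  fin_cases i <;> fin_cases j <;> simp

theorem vs_zero : vs 0 = 1 := by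
  apply Subtype.ext
  rw [Matrix.SpecialLinearGroup.coe_one, coe_vs]
  unfold x21
  refine Matrix.ext fun i j => ?_
  fin_cases i <;> fin_cases j <;> simp

theorem us_inv (s : ℤ[X]) : (us s)⁻¹ = us (-s) := by
  rw [inv_eq_iff_mul_eq_one, ← us_add, add_neg_cancel, us_zero]

theorem vs_inv (s : ℤ[X]) : (vs s)⁻¹ = vs (-s) := by
  rw [inv_eq_iff_mul_eq_one, ← vs_add, add_neg_cancel, vs_zero]

theorem coe_ls (s : ℤ[X]) : ((ls s : SL (Fin 2) ℤ[X]) : Matrix (Fin 2) (Fin 2) ℤ[X]) = Lt s := by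
  unfold ls
  rw [vs_inv, Matrix.SpecialLinearGroup.coe_mul, Matrix.SpecialLinearGroup.coe_mul, coe_us, coe_vs,
    coe_vs]
  unfold x12 x21 Lt
  refine Matrix.ext fun i j => ?_
  fin_cases i <;> fin_cases j <;> simp [Matrix.mul_apply, Fin.sum_univ_two]
  ring

theorem ls_add (s t : ℤ[X]) : ls (s + t) = ls s * ls t := by
  unfold ls
  rw [neg_add, us_add]
  group

theorem ls_neg (s : ℤ[X]) : (ls s)⁻¹ = ls (-s) := by
  unfold ls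
  rw [neg_neg, _root_.mul_inv_rev, _root_.mul_inv_rev, inv_inv, us_inv, neg_neg, mul_assoc]

/-! ## Membership -/

theorem us_Ez (s : ℤ[X]) : us s ∈ Ez (Fin 2) ℤ[X] := xs_mem_Ez _ _ _ _

theorem vs_Ez (s : ℤ[X]) : vs s ∈ Ez (Fin 2) ℤ[X] := xs_mem_Ez _ _ _ _

theorem ls_Ez (s : ℤ[X]) : ls s ∈ Ez (Fin 2) ℤ[X] :=
  mul_mem (mul_mem (vs_Ez _) (us_Ez _)) (inv_mem (vs_Ez _))

theorem us_E1 {a : ℕ} {s : ℤ[X]} (h : X ^ a ∣ s) : us s ∈ E1 (Fin 2) a := by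
  obtain ⟨f, rfl⟩ := h
  exact xs_mem_E1 _ _ _ _

theorem vs_E1 {a : ℕ} {s : ℤ[X]} (h : X ^ a ∣ s) : vs s ∈ E1 (Fin 2) a := by
  obtain ⟨f, rfl⟩ := h
  exact xs_mem_E1 _ _ _ _

theorem ls_E1 {a : ℕ} {s : ℤ[X]} (h : X ^ a ∣ s) : ls s ∈ E1 (Fin 2) a :=
  E1_conj (vs_Ez 1) (us_E1 ((dvd_neg).2 h))

/-- conjugation by `x12 (- 1)` -/
def Pj : SL (Fin 2) ℤ[X] := us (-1)

theorem Pj_Ez : Pj ∈ Ez (Fin 2) ℤ[X] := us_Ez _

/-- `P M P⁻¹ = 1 - E` -/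
theorem conj_E (q : Q4) (g : SL (Fin 2) ℤ[X]) (hg : (g : Matrix (Fin 2) (Fin 2) ℤ[X]) = q.M) :
    ((Pj * g * Pj⁻¹ : SL (Fin 2) ℤ[X]) : Matrix (Fin 2) (Fin 2) ℤ[X]) = 1 - q.E := by
  unfold Pj
  rw [us_inv, neg_neg, Matrix.SpecialLinearGroup.coe_mul, Matrix.SpecialLinearGroup.coe_mul, coe_us,
    coe_us, hg]
  unfold Q4.M Q4.E Em x12
  refine Matrix.ext fun i j => ?_
  fin_cases i <;> fin_cases j <;> simp [Matrix.mul_apply, Fin.sum_univ_two] <;> ring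

/-! ## The words -/

/-- the word for `m ≥ 3` -/
def wG (m J : ℕ) : SL (Fin 2) ℤ[X] :=
  us X * vs (X ^ (m - 1)) * us (-X - X ^ m) * us (X ^ m) * vs (-psi m J) * ls (-X ^ m) *
    us (-phi m J)

/-- the word for `m = 2` -/
def wT (J : ℕ) : SL (Fin 2) ℤ[X] :=
  us X * vs X * us (-X - X ^ 2) * vs (-X) * ls (-q1 J) * vs (X ^ 2 - X ^ 4) * us (-q3 J)

/-- the representative of the rotation of level `m` -/
def Ysl (m J : ℕ) : SL (Fin 2) ℤ[X] := if m = 2 then Pj * wT J * Pj⁻¹ else Pj * wG m J * Pj⁻¹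

theorem coe_wG {m : ℕ} (hm : 3 ≤ m) (J : ℕ) :
    ((wG m J : SL (Fin 2) ℤ[X]) : Matrix (Fin 2) (Fin 2) ℤ[X]) = (G7 m J).M := by
  rw [G7_M hm]
  unfold wG
  simp only [Matrix.SpecialLinearGroup.coe_mul, coe_us, coe_vs, coe_ls]

theorem coe_wT (J : ℕ) :
    ((wT J : SL (Fin 2) ℤ[X]) : Matrix (Fin 2) (Fin 2) ℤ[X]) = (W7 J).M := by
  rw [W7_M]
  unfold wT
  simp only [Matrix.SpecialLinearGroup.coe_mul, coe_us, coe_vs, coe_ls]

theorem coe_Ysl {m : ℕ} (hm : 2 ≤ m) (J : ℕ) :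
    ((Ysl m J : SL (Fin 2) ℤ[X]) : Matrix (Fin 2) (Fin 2) ℤ[X]) = 1 - (Yq m J).E := by
  by_cases h : m = 2
  · simp only [Ysl, Yq, if_pos h]
    exact conj_E _ _ (coe_wT J)
  · simp only [Ysl, Yq, if_neg h]
    exact conj_E _ _ (coe_wG (by omega) J)

theorem coe_Ysl' {m : ℕ} (hm : 2 ≤ m) (J : ℕ) :
    ((Ysl m J : SL (Fin 2) ℤ[X]) : Matrix (Fin 2) (Fin 2) ℤ[X]) = Yr m J := coe_Ysl hm J

theorem X_pow_dvd_of_low {p : ℤ[X]} {L : ℕ} (h : ∀ d, d < L → p.coeff d = 0) : X ^ L ∣ p :=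
  Polynomial.X_pow_dvd_iff.2 h

theorem E_dvd {q : Q4} {T L : ℕ} (hq : q.Low T) (hL : L ≤ T) (i j : Fin 2) : X ^ L ∣ q.E i j := by
  have ha : X ^ L ∣ q.a := X_pow_dvd_of_low fun d hd => (hq d (by omega)).1
  have hb : X ^ L ∣ q.b := X_pow_dvd_of_low fun d hd => (hq d (by omega)).2.1
  have hc : X ^ L ∣ q.c := X_pow_dvd_of_low fun d hd => (hq d (by omega)).2.2.1
  have he : X ^ L ∣ q.e := X_pow_dvd_of_low fun d hd => (hq d (by omega)).2.2.2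
  unfold Q4.E Em
  fin_cases i <;> fin_cases j
  · exact dvd_sub hc ha
  · exact dvd_sub (dvd_add (dvd_sub hc ha) he) hb
  · exact (dvd_neg).2 hc
  · exact dvd_sub ((dvd_neg).2 hc) he

theorem cg_Ysl {m : ℕ} (hm : 2 ≤ m) {J L : ℕ} (hL : L ≤ Tr m J) : Cg (X ^ L) (Ysl m J) := by
  intro i j
  rw [coe_Ysl hm, sub_sub_cancel_left, Matrix.neg_apply]
  exact (dvd_neg).2 (E_dvd (Yq_low hm J) hL i j)

/-! ## The class -/

theorem geo_succ_eq (k r : ℕ) : geo k (r + 1) = 1 + X ^ k * geo k r := by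
  unfold geo
  rw [Finset.sum_range_succ', Finset.mul_sum, mul_zero, pow_zero, add_comm]
  congr 1
  refine Finset.sum_congr rfl fun i _ => ?_
  rw [← pow_add]
  congr 1
  ring

theorem dvd_psi (q J : ℕ) : X ^ (q + 1) ∣ (X ^ q - psi (q + 1) J : ℤ[X]) := by
  refine ⟨1 - X ^ q * geo (q + 1) J * (1 - X), ?_⟩
  rw [psi_eq, geo_succ_eq]
  ring

theorem dvd_phi (q J : ℕ) : X ^ (q + 1) ∣ (phi (q + 1) J : ℤ[X]) := ⟨_, phi_eq' q J⟩

theorem dvd_psi_sub {q J0 J : ℕ} (h : J0 ≤ J) :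
    X ^ (q + (q + 1) * (J0 + 1)) ∣ (psi (q + 1) J - psi (q + 1) J0 : ℤ[X]) := by
  obtain ⟨r, rfl⟩ := Nat.exists_eq_add_of_le h
  unfold psi
  rw [← sub_mul]
  refine Dvd.dvd.mul_right ?_ _
  rw [show J0 + r + 1 = (J0 + 1) + r by ring, Finset.sum_range_add, add_sub_cancel_left]
  refine Finset.dvd_sum fun k _ => pow_dvd_pow _ ?_
  rw [Nat.add_sub_cancel]
  have : (q + 1) * (J0 + 1) ≤ (J0 + 1 + k) * (q + 1) := by
    rw [mul_comm]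
    exact Nat.mul_le_mul (by omega) le_rfl
  omega

theorem dvd_phi_sub {q J0 J : ℕ} (h : J0 ≤ J) :
    X ^ (q + (q + 1) * (J0 + 1)) ∣ (phi (q + 1) J - phi (q + 1) J0 : ℤ[X]) := by
  obtain ⟨r, rfl⟩ := Nat.exists_eq_add_of_le h
  unfold phi
  rw [← sub_mul]
  refine Dvd.dvd.mul_right ?_ _
  rw [show J0 + r + 3 = (J0 + 3) + r by ring, Finset.sum_range_add, add_sub_cancel_left]
  refine Finset.dvd_sum fun k _ => pow_dvd_pow _ ?_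
  have : (J0 + 3) * (q + 1) ≤ (J0 + 3 + k + 1) * (q + 1) := Nat.mul_le_mul (by omega) le_rfl
  have e : (J0 + 3) * (q + 1) = (q + 1) * (J0 + 1) + (2 * q + 2) := by ring
  omega

theorem dvd_q1 (J : ℕ) : X ^ 2 ∣ (q1 J : ℤ[X]) :=
  ⟨(1 + X + X ^ 2 + X ^ 3) * ∑ i ∈ Finset.range J, (-X ^ 6) ^ i, by unfold q1; ring⟩

theorem dvd_q3 (J : ℕ) : X ^ 2 ∣ (q3 J : ℤ[X]) :=
  ⟨(X ^ 3 + X ^ 5) * ∑ i ∈ Finset.range J, (-X ^ 6) ^ i, by unfold q3; ring⟩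

theorem dvd_th_sum {J0 J : ℕ} (h : J0 ≤ J) :
    X ^ (6 * J0) ∣ (∑ i ∈ Finset.range J, (-X ^ 6) ^ i - ∑ i ∈ Finset.range J0, (-X ^ 6) ^ i : ℤ[X]) := by
  obtain ⟨r, rfl⟩ := Nat.exists_eq_add_of_le h
  rw [Finset.sum_range_add, add_sub_cancel_left]
  refine Finset.dvd_sum fun k _ => ?_
  rw [pow_add, neg_pow (X ^ 6 : ℤ[X]) J0, ← pow_mul]
  exact Dvd.dvd.mul_right (Dvd.dvd.mul_left dvd_rfl _) _

theorem dvd_q1_sub {J0 J : ℕ} (h : J0 ≤ J) : X ^ (6 * J0 + 2) ∣ (q1 J - q1 J0 : ℤ[X]) := by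
  unfold q1
  rw [← mul_sub, add_comm (6 * J0) 2, pow_add]
  refine mul_dvd_mul ⟨1 + X + X ^ 2 + X ^ 3, by ring⟩ (dvd_th_sum h)

theorem dvd_q3_sub {J0 J : ℕ} (h : J0 ≤ J) : X ^ (6 * J0 + 2) ∣ (q3 J - q3 J0 : ℤ[X]) := by
  unfold q3
  rw [← mul_sub, add_comm (6 * J0) 2, pow_add]
  refine mul_dvd_mul ⟨X ^ 3 + X ^ 5, by ring⟩ (dvd_th_sum h)

/-- `C = [x12 X, x21 (X ^ a)]` -/
theorem Cc2_eq (a : ℕ) : Cc2 1 1 a = us X * vs (X ^ a) * us (-X) * vs (-X ^ a) := by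
  unfold Cc2
  rw [map_one, one_mul, one_mul]
  show us X * vs (X ^ a) * (us X)⁻¹ * (vs (X ^ a))⁻¹ = _
  rw [us_inv, vs_inv]

theorem wG_eq (m J : ℕ) : wG m J = Cc2 1 1 (m - 1) *
    (vs (X ^ (m - 1) - psi m J) * ls (-X ^ m) * us (-phi m J)) := by
  rw [Cc2_eq, sub_eq_add_neg (X ^ (m - 1)) (psi m J), vs_add]
  unfold wG
  rw [sub_eq_add_neg, us_add (-X), ← us_inv (X ^ m), ← vs_inv (X ^ (m - 1))]
  group

theorem wT_eq (J : ℕ) : wT J = Cc2 1 1 1 *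
    (vs X * us (-X ^ 2) * (vs X)⁻¹ * ls (-q1 J) * vs (X ^ 2 - X ^ 4) * us (-q3 J)) := by
  rw [Cc2_eq, pow_one]
  unfold wT
  rw [sub_eq_add_neg (-X) (X ^ 2), us_add (-X), ← vs_inv X]
  group

theorem cls_Ysl {m : ℕ} (hm : 2 ≤ m) (J : ℕ) : ClsK m (Ysl m J) := by
  refine ⟨1, 1, Or.inl rfl, Or.inl rfl, Pj, Pj_Ez, ?_⟩
  by_cases h : m = 2
  · subst h
    have e : (Pj * Cc2 1 1 (2 - 1) * Pj⁻¹)⁻¹ * Ysl 2 J = Pj * (vs X * us (-X ^ 2) * (vs X)⁻¹ *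
        ls (-q1 J) * vs (X ^ 2 - X ^ 4) * us (-q3 J)) * Pj⁻¹ := by
      simp only [Ysl, if_true]
      rw [wT_eq]
      group
    rw [e]
    refine E1_conj Pj_Ez (mul_mem (mul_mem (mul_mem ?_ ?_) ?_) ?_)
    · exact E1_conj (vs_Ez X) (us_E1 ((dvd_neg).2 dvd_rfl))
    · exact ls_E1 ((dvd_neg).2 (dvd_q1 J))
    · exact vs_E1 (dvd_sub dvd_rfl ⟨X ^ 2, by ring⟩)
    · exact us_E1 ((dvd_neg).2 (dvd_q3 J))
  · obtain ⟨q, rfl⟩ : ∃ q, m = q + 1 := ⟨m - 1, by omega⟩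
    have e : (Pj * Cc2 1 1 (q + 1 - 1) * Pj⁻¹)⁻¹ * Ysl (q + 1) J =
        Pj * (vs (X ^ q - psi (q + 1) J) * ls (-X ^ (q + 1)) * us (-phi (q + 1) J)) * Pj⁻¹ := by
      simp only [Ysl, if_neg h]
      rw [wG_eq, Nat.add_sub_cancel]
      group
    rw [e]
    refine E1_conj Pj_Ez (mul_mem (mul_mem ?_ ?_) ?_)
    · exact vs_E1 (dvd_psi q J)
    · exact ls_E1 ((dvd_neg).2 dvd_rfl)
    · exact us_E1 ((dvd_neg).2 (dvd_phi q J))

/-! ## Coherence -/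

theorem coh_Ysl {m : ℕ} (hm : 2 ≤ m) {J0 J L : ℕ} (hJ : J0 ≤ J) (hL : L ≤ Tr m J0) :
    (Ysl m J0)⁻¹ * Ysl m J ∈ E1 (Fin 2) L := by
  by_cases h : m = 2
  · subst h
    have hL' : L ≤ 6 * J0 + 2 := by
      simp only [Tr, if_true] at hL
      exact hL
    have e : (Ysl 2 J0)⁻¹ * Ysl 2 J = Pj * ((us (q3 J0) * (vs (X ^ 2 - X ^ 4))⁻¹) *
        ls (q1 J0 - q1 J) * (us (q3 J0) * (vs (X ^ 2 - X ^ 4))⁻¹)⁻¹ * us (q3 J0 - q3 J)) * Pj⁻¹ := by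
      simp only [Ysl, if_true]
      unfold wT
      rw [sub_eq_add_neg (q1 J0), ls_add, ← ls_neg, ← ls_neg, sub_eq_add_neg (q3 J0), us_add,
        ← us_inv (q3 J0), ← us_inv (q3 J)]
      group
    rw [e]
    refine E1_conj Pj_Ez (mul_mem (E1_conj (mul_mem (us_Ez _) (inv_mem (vs_Ez _))) (ls_E1 ?_))
      (us_E1 ?_))
    · rw [← neg_sub]
      exact (dvd_neg).2 ((pow_dvd_pow X hL').trans (dvd_q1_sub hJ))
    · rw [← neg_sub]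
      exact (dvd_neg).2 ((pow_dvd_pow X hL').trans (dvd_q3_sub hJ))
  · obtain ⟨q, rfl⟩ : ∃ q, m = q + 1 := ⟨m - 1, by omega⟩
    have hL' : L ≤ q + (q + 1) * (J0 + 1) := by
      simp only [Tr, if_neg h] at hL
      rwa [T_eq] at hL
    have e : (Ysl (q + 1) J0)⁻¹ * Ysl (q + 1) J = Pj * ((us (phi (q + 1) J0) *
        (ls (-X ^ (q + 1)))⁻¹) * vs (psi (q + 1) J0 - psi (q + 1) J) *
        (us (phi (q + 1) J0) * (ls (-X ^ (q + 1)))⁻¹)⁻¹ *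
          us (phi (q + 1) J0 - phi (q + 1) J)) * Pj⁻¹ := by
      simp only [Ysl, if_neg h]
      unfold wG
      rw [sub_eq_add_neg (psi (q + 1) J0), vs_add, ← vs_inv (psi (q + 1) J0),
        ← vs_inv (psi (q + 1) J), sub_eq_add_neg (phi (q + 1) J0), us_add,
        ← us_inv (phi (q + 1) J0), ← us_inv (phi (q + 1) J)]
      group
    rw [e]
    refine E1_conj Pj_Ez (mul_mem (E1_conj (mul_mem (us_Ez _) (inv_mem (ls_Ez _))) (vs_E1 ?_))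
      (us_E1 ?_))
    · rw [← neg_sub]
      exact (dvd_neg).2 ((pow_dvd_pow X hL').trans (dvd_psi_sub hJ))
    · rw [← neg_sub]
      exact (dvd_neg).2 ((pow_dvd_pow X hL').trans (dvd_phi_sub hJ))

end Pool.Agent.WFS.Rot
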