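import Pool.Agent.WFS.Rot.Def

/-!
# The rotation for `m = 2` (helper94's path)

Stage S: `x12 X` to `(0, X, 0, 0)`, `x21 X` to `(X^2, X, X, 0)`, `x12 (- X - X ^ 2)` to
`(X^2, - X^2 - X^3 - X^4, X, - X^2 - X^3)`, `x21 (- X)` to `W4`. Stage S': `Lt (- q1)` to
`(X^5 - q3 + th (X^2 + X^3 + X^4), q3 - th (X^2 + X^3 + X^4), - X^2 + X^4 + th (X^2 + X^3), - th (X^2 + X^3))`,
`x21 (X ^ 2 - X ^ 4)` to `(th A, q3 - th (X^2 + X^3 + X^4), th (X^2 + X^3) (1 - X^2 + X^4), - th (X^2 + X^3))`,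
`x12 (- q3)` to `W7`, where `th = (- X^6)^J`, `(1 + X^6) sum_(i < J) (- X^6)^i = 1 - th`.
The joint costs are at most 1 in the degrees `1 .. 5` at the stage S and at most 1 in the degrees
`2 .. 6 J + 1` at the stage S'.
-/

set_option autoImplicit false
set_option linter.unusedSectionVars false

noncomputable section

namespace Pool.Agent.WFS.Rot

open Polynomial Matrix Pool.Agent.WFS Pool.Agent.WFG

def th (J : ℕ) : ℤ[X] := (-X ^ 6) ^ J

/-- `(X^2 + X^3 + X^4 + X^5) sum_(i < J) (- X^6)^i` -/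
def q1 (J : ℕ) : ℤ[X] := (X ^ 2 + X ^ 3 + X ^ 4 + X ^ 5) * ∑ i ∈ Finset.range J, (-X ^ 6) ^ i

/-- `(X^5 + X^7) sum_(i < J) (- X^6)^i` -/
def q3 (J : ℕ) : ℤ[X] := (X ^ 5 + X ^ 7) * ∑ i ∈ Finset.range J, (-X ^ 6) ^ i

/-- `x12 X * x21 X * x12 (- X - X ^ 2) * x21 (- X)` -/
def W4 : Q4 :=
  ⟨X ^ 2 + X ^ 3 + X ^ 4 + X ^ 5, -X ^ 2 - X ^ 3 - X ^ 4, X ^ 3 + X ^ 4, -X ^ 2 - X ^ 3⟩

/-- the end: `M = 1 mod X ^ (6 J + 2)` -/
def W7 (J : ℕ) : Q4 :=
  ⟨th J * (X ^ 2 + X ^ 3 + X ^ 7 + X ^ 8),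
    -th J * (X ^ 2 + X ^ 3 + X ^ 4 + q3 J * (X ^ 2 + X ^ 3 + X ^ 7 + X ^ 8)),
    th J * ((X ^ 2 + X ^ 3) * (1 - X ^ 2 + X ^ 4)),
    -th J * ((X ^ 2 + X ^ 3) * (1 + X ^ 5 - th J * X ^ 5))⟩

/-! ### the geometric sum -/

/-- the sum -/
private def gs (J : ℕ) : ℤ[X] := ∑ i ∈ Finset.range J, (-X ^ 6) ^ i

private theorem gs_succ (J : ℕ) : gs (J + 1) = gs J + th J := by
  unfold gs th
  rw [Finset.sum_range_succ]

private theorem gs_mul (J : ℕ) : gs J * (1 + X ^ 6) = 1 - th J := by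
  induction J with
  | zero => simp [gs, th]
  | succ J ih =>
    have e : th (J + 1) = -X ^ 6 * th J := by
      unfold th
      rw [pow_succ, mul_comm]
    rw [gs_succ, e]
    linear_combination ih

private theorem th_coeff (J d : ℕ) : (th J).coeff d = if d = 6 * J then (-1) ^ J else 0 := by
  have e : th J = C ((-1) ^ J) * X ^ (6 * J) := by
    unfold th
    rw [neg_pow, ← pow_mul]
    simp
  rw [e, coeff_C_mul, coeff_X_pow]
  split_ifs <;> simp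

private theorem gs_coeff (J : ℕ) : ∀ d, (gs J).coeff d =
    if 6 ∣ d ∧ d < 6 * J then (-1) ^ (d / 6) else 0 := by
  induction J with
  | zero => intro d; simp [gs]
  | succ J ih =>
    intro d
    rw [gs_succ, coeff_add, ih, th_coeff]
    by_cases h : d = 6 * J
    · subst h
      rw [if_neg (by omega), if_pos rfl, if_pos ⟨dvd_mul_right _ _, by omega⟩,
        Nat.mul_div_cancel_left _ (by norm_num)]
      ring
    · rw [if_neg h, add_zero]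
      by_cases h2 : 6 ∣ d ∧ d < 6 * J
      · rw [if_pos h2, if_pos ⟨h2.1, by omega⟩]
      · rw [if_neg h2, if_neg (by omega)]

private theorem gs_cases (J d : ℕ) : (gs J).coeff d = 0 ∨
    6 ∣ d ∧ ((gs J).coeff d = 1 ∨ (gs J).coeff d = -1) := by
  rw [gs_coeff]
  split_ifs with h
  · right
    exact ⟨h.1, neg_one_pow_eq_or ℤ _⟩
  · left; rfl

/-- all coefficients at most `k` in absolute value -/
private def Bk (p : ℤ[X]) (k : ℤ) : Prop := ∀ d, |p.coeff d| ≤ k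

private theorem Bk.add {p q : ℤ[X]} {k l : ℤ} (hp : Bk p k) (hq : Bk q l) : Bk (p + q) (k + l) :=
  fun d => by rw [coeff_add]; exact (abs_add_le _ _).trans (add_le_add (hp d) (hq d))

private theorem Bk.sub {p q : ℤ[X]} {k l : ℤ} (hp : Bk p k) (hq : Bk q l) : Bk (p - q) (k + l) :=
  fun d => by rw [coeff_sub]; exact (abs_sub _ _).trans (add_le_add (hp d) (hq d))

private theorem Bk.neg {p : ℤ[X]} {k : ℤ} (hp : Bk p k) : Bk (-p) k :=
  fun d => by rw [coeff_neg, abs_neg]; exact hp d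

private theorem Bk.mono {p : ℤ[X]} {k l : ℤ} (hp : Bk p k) (h : k ≤ l) : Bk p l :=
  fun d => (hp d).trans h

private theorem Bk.Xmul {p : ℤ[X]} {k : ℤ} (hp : Bk p k) (n : ℕ) : Bk (X ^ n * p) k := by
  intro d
  rw [coeff_X_pow_mul']
  split_ifs
  · exact hp _
  · rw [abs_zero]; exact (abs_nonneg _).trans (hp 0)

private theorem Bk.xp (n : ℕ) : Bk (X ^ n) 1 := by
  intro d
  rw [coeff_X_pow]
  split_ifs <;> simp

private theorem th_eq (J : ℕ) : th J = C ((-1) ^ J) * X ^ (6 * J) := by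
  unfold th
  rw [neg_pow, ← pow_mul]
  simp

private theorem Bk.tm {p : ℤ[X]} {k : ℤ} (hp : Bk p k) (J : ℕ) : Bk (th J * p) k := by
  intro d
  rw [th_eq, mul_assoc, coeff_C_mul, abs_mul, abs_pow, abs_neg, abs_one, one_pow, one_mul]
  exact hp.Xmul _ d

private theorem gs_Bk (J : ℕ) : Bk (gs J) 1 := by
  intro d
  rcases gs_cases J d with h | ⟨-, h | h⟩ <;> rw [h] <;> simp

/-- below the degree `6 J + 2` -/
private theorem th_low {J d : ℕ} (hd : d < 6 * J + 2) (p : ℤ[X]) :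
    (Rot.th J * (Polynomial.X ^ 2 * p)).coeff d = 0 := by
  rw [th_eq, mul_assoc, coeff_C_mul, ← mul_assoc, ← pow_add, coeff_X_pow_mul', if_neg (by omega),
    mul_zero]


theorem q1_eq (J : ℕ) : q1 J = (X ^ 2 + X ^ 3 + X ^ 4 + X ^ 5) * gs J := rfl

theorem q3_eq (J : ℕ) : q3 J = (X ^ 5 + X ^ 7) * gs J := rfl

/-- the quadruple after the first step of the stage S' -/
private def W5 (J : ℕ) : Q4 :=
  ⟨X ^ 5 - q3 J + th J * (X ^ 2 + X ^ 3 + X ^ 4), q3 J - th J * (X ^ 2 + X ^ 3 + X ^ 4),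
    -X ^ 2 + X ^ 4 + th J * (X ^ 2 + X ^ 3), -(th J * (X ^ 2 + X ^ 3))⟩

/-- the quadruple after the second step of the stage S' -/
private def W6 (J : ℕ) : Q4 :=
  ⟨th J * (X ^ 2 + X ^ 3 + X ^ 7 + X ^ 8), q3 J - th J * (X ^ 2 + X ^ 3 + X ^ 4),
    th J * ((X ^ 2 + X ^ 3) * (1 - X ^ 2 + X ^ 4)), -(th J * (X ^ 2 + X ^ 3))⟩

/-! ### stage S -/

private theorem cf (n d : ℕ) : ((X : ℤ[X]) ^ n).coeff d = if d = n then 1 else 0 := coeff_X_pow n d

theorem two_S : Relation.ReflTransGen (Mv (β1 5)) ⟨0, 0, 0, 0⟩ W4 := by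
  refine Relation.ReflTransGen.head (b := ⟨0, X ^ 1, 0, 0⟩)
    (Mv.m12 0 0 0 0 (X ^ 1) _ _ (by ring) (by ring) ?_) ?_
  · intro d
    simp only [coeff_zero, cf, c12, m4, β1]
    by_cases h1 : d = 1
    · subst h1; decide
    · rw [if_neg h1]
      split_ifs <;> simp
  refine Relation.ReflTransGen.head (b := ⟨X ^ 2, X ^ 1, X ^ 1, 0⟩)
    (Mv.m21 0 (X ^ 1) 0 0 (X ^ 1) _ _ (by ring) (by ring) ?_) ?_
  · intro d
    simp only [coeff_zero, cf, c21, m4, β1]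
    rcases (by omega : d = 1 ∨ d = 2 ∨ (d ≠ 1 ∧ d ≠ 2)) with h | h | h
    · subst h; decide
    · subst h; decide
    · rw [if_neg h.1, if_neg h.2]
      split_ifs <;> simp
  refine Relation.ReflTransGen.head (b := ⟨X ^ 2, -X ^ 2 - X ^ 3 - X ^ 4, X ^ 1, -X ^ 2 - X ^ 3⟩)
    (Mv.m12 (X ^ 2) (X ^ 1) (X ^ 1) 0 (-X ^ 1 - X ^ 2) _ _ (by ring) (by ring) ?_) ?_
  · intro d
    simp only [coeff_zero, coeff_sub, coeff_neg, cf, c12, m4, β1]
    rcases (by omega : d = 1 ∨ d = 2 ∨ d = 3 ∨ d = 4 ∨ (d ≠ 1 ∧ d ≠ 2 ∧ d ≠ 3 ∧ d ≠ 4)) with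
      h | h | h | h | h
    · subst h; decide
    · subst h; decide
    · subst h; decide
    · subst h; decide
    · rw [if_neg h.1, if_neg h.2.1, if_neg h.2.2.1, if_neg h.2.2.2]
      split_ifs <;> simp
  refine Relation.ReflTransGen.single
    (Mv.m21 (X ^ 2) (-X ^ 2 - X ^ 3 - X ^ 4) (X ^ 1) (-X ^ 2 - X ^ 3) (-X ^ 1) _ _
      (by ring) (by ring) ?_)
  intro d
  simp only [coeff_add, coeff_sub, coeff_neg, cf, c21, m4, β1]
  rcases (by omega : d = 1 ∨ d = 2 ∨ d = 3 ∨ d = 4 ∨ d = 5 ∨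
      (d ≠ 1 ∧ d ≠ 2 ∧ d ≠ 3 ∧ d ≠ 4 ∧ d ≠ 5)) with h | h | h | h | h | h
  · subst h; decide
  · subst h; decide
  · subst h; decide
  · subst h; decide
  · subst h; decide
  · rw [if_neg h.1, if_neg h.2.1, if_neg h.2.2.1, if_neg h.2.2.2.1, if_neg h.2.2.2.2]
    split_ifs <;> simp

/-! ### bounds -/

private theorem Bk.sum3 (a b c : ℕ) (hab : a < b) (hbc : b < c) :
    Bk (X ^ a + X ^ b + X ^ c) 1 := by
  intro d
  rw [coeff_add, coeff_add, cf, cf, cf]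
  split_ifs <;> first | omega | simp

private theorem q3_Bk (J : ℕ) : Bk (q3 J) 2 := by
  rw [q3_eq, add_mul]
  exact ((gs_Bk J).Xmul 5).add ((gs_Bk J).Xmul 7)

private theorem W4a_Bk : Bk (X ^ 2 + X ^ 3 + X ^ 4 + X ^ 5) 4 :=
  (((Bk.xp 2).add (Bk.xp 3)).add (Bk.xp 4)).add (Bk.xp 5)

private theorem W4b_Bk : Bk (-X ^ 2 - X ^ 3 - X ^ 4) 3 :=
  ((Bk.xp 2).neg.sub (Bk.xp 3)).sub (Bk.xp 4)

private theorem W4c_Bk : Bk (X ^ 3 + X ^ 4) 2 := (Bk.xp 3).add (Bk.xp 4)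

private theorem W4e_Bk : Bk (-X ^ 2 - X ^ 3) 2 := (Bk.xp 2).neg.sub (Bk.xp 3)

private theorem W5a_Bk (J : ℕ) : Bk (X ^ 5 - q3 J + th J * (X ^ 2 + X ^ 3 + X ^ 4)) 6 :=
  ((((Bk.xp 5).sub (q3_Bk J)).add ((Bk.sum3 2 3 4 (by norm_num) (by norm_num)).tm J))).mono
    (by norm_num)

private theorem W5b_Bk (J : ℕ) : Bk (q3 J - th J * (X ^ 2 + X ^ 3 + X ^ 4)) 5 :=
  ((q3_Bk J).sub ((Bk.sum3 2 3 4 (by norm_num) (by norm_num)).tm J)).mono (by norm_num)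

private theorem W5c_Bk (J : ℕ) : Bk (-X ^ 2 + X ^ 4 + th J * (X ^ 2 + X ^ 3)) 4 :=
  ((Bk.xp 2).neg.add (Bk.xp 4)).add (((Bk.xp 2).add (Bk.xp 3)).tm J)

private theorem W5e_Bk (J : ℕ) : Bk (-(th J * (X ^ 2 + X ^ 3))) 2 :=
  (((Bk.xp 2).add (Bk.xp 3)).tm J).neg

private theorem W6a_Bk (J : ℕ) : Bk (th J * (X ^ 2 + X ^ 3 + X ^ 7 + X ^ 8)) 4 :=
  ((((Bk.xp 2).add (Bk.xp 3)).add (Bk.xp 7)).add (Bk.xp 8)).tm J

private theorem W6c_Bk (J : ℕ) : Bk (th J * ((X ^ 2 + X ^ 3) * (1 - X ^ 2 + X ^ 4))) 6 := by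
  have e : (X ^ 2 + X ^ 3 : ℤ[X]) * (1 - X ^ 2 + X ^ 4) =
      X ^ 2 + X ^ 3 - X ^ 4 - X ^ 5 + X ^ 6 + X ^ 7 := by ring
  rw [e]
  exact ((((((Bk.xp 2).add (Bk.xp 3)).sub (Bk.xp 4)).sub (Bk.xp 5)).add (Bk.xp 6)).add (Bk.xp 7)).tm J

private theorem W7b_Bk (J : ℕ) :
    Bk (-th J * (X ^ 2 + X ^ 3 + X ^ 4 + q3 J * (X ^ 2 + X ^ 3 + X ^ 7 + X ^ 8))) 5 := by
  have e : -th J * (X ^ 2 + X ^ 3 + X ^ 4 + q3 J * (X ^ 2 + X ^ 3 + X ^ 7 + X ^ 8)) =
      -(th J * (X ^ 2 + X ^ 3 + X ^ 4 + ((X ^ 7 + X ^ 8 + X ^ 9) - th J * (X ^ 7 + X ^ 8 + X ^ 9) +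
        (X ^ 10 * gs J + X ^ 12 * gs J)))) := by
    rw [q3_eq]
    have h := gs_mul J
    linear_combination (-th J * (X ^ 7 + X ^ 8 + X ^ 9)) * h
  rw [e]
  have h3 := Bk.sum3 2 3 4 (by norm_num) (by norm_num)
  have h7 := Bk.sum3 7 8 9 (by norm_num) (by norm_num)
  exact ((h3.add ((h7.sub (h7.tm J)).add (((gs_Bk J).Xmul 10).add ((gs_Bk J).Xmul 12)))).tm J).neg.mono
    (by norm_num)

private theorem W7e_Bk (J : ℕ) :
    Bk (-th J * ((X ^ 2 + X ^ 3) * (1 + X ^ 5 - th J * X ^ 5))) 6 := by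
  have e : -th J * ((X ^ 2 + X ^ 3) * (1 + X ^ 5 - th J * X ^ 5)) =
      -(th J * (X ^ 2 + X ^ 3 + X ^ 7 + X ^ 8 - th J * (X ^ 7 + X ^ 8))) := by ring
  rw [e]
  exact (((((Bk.xp 2).add (Bk.xp 3)).add (Bk.xp 7)).add (Bk.xp 8)).sub
    (((Bk.xp 7).add (Bk.xp 8)).tm J)).tm J |>.neg |>.mono (by norm_num)

theorem W4_bd : W4.Bd ∧ W4.Low 2 := by
  refine ⟨fun d => ⟨(W4a_Bk d).trans (by norm_num), (W4b_Bk d).trans (by norm_num),
    (W4c_Bk d).trans (by norm_num), (W4e_Bk d).trans (by norm_num)⟩, fun d hd => ?_⟩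
  simp only [W4, coeff_add, coeff_sub, coeff_neg, cf]
  rw [if_neg (show d ≠ 2 by omega), if_neg (show d ≠ 3 by omega), if_neg (show d ≠ 4 by omega),
    if_neg (show d ≠ 5 by omega)]
  simp

theorem W7_bd (J : ℕ) : (W7 J).Bd := fun d =>
  ⟨(W6a_Bk J d).trans (by norm_num), (W7b_Bk J d).trans (by norm_num),
    (W6c_Bk J d).trans (by norm_num), (W7e_Bk J d).trans (by norm_num)⟩

/-! ### low degrees -/

private theorem th_low' {J d : ℕ} (hd : d < 6 * J + 2) {q : ℤ[X]} (p : ℤ[X]) (h : q = X ^ 2 * p) :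
    (th J * q).coeff d = 0 := by
  rw [h]
  exact th_low hd p

private theorem l3 {J d : ℕ} (hd : d < 6 * J + 2) :
    (th J * (X ^ 2 + X ^ 3 + X ^ 4)).coeff d = 0 := th_low' hd (1 + X + X ^ 2) (by ring)

private theorem l2 {J d : ℕ} (hd : d < 6 * J + 2) :
    (th J * (X ^ 2 + X ^ 3)).coeff d = 0 := th_low' hd (1 + X) (by ring)

private theorem l4 {J d : ℕ} (hd : d < 6 * J + 2) :
    (th J * (X ^ 2 + X ^ 3 + X ^ 7 + X ^ 8)).coeff d = 0 :=
  th_low' hd (1 + X + X ^ 5 + X ^ 6) (by ring)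

private theorem l6 {J d : ℕ} (hd : d < 6 * J + 2) :
    (th J * ((X ^ 2 + X ^ 3) * (1 - X ^ 2 + X ^ 4))).coeff d = 0 :=
  th_low' hd ((1 + X) * (1 - X ^ 2 + X ^ 4)) (by ring)

private theorem q3_sq (J : ℕ) : ∃ p : ℤ[X], q3 J = X ^ 5 * p :=
  ⟨(1 + X ^ 2) * gs J, by rw [q3_eq]; ring⟩

private theorem l7b {J d : ℕ} (hd : d < 6 * J + 2) :
    (-th J * (X ^ 2 + X ^ 3 + X ^ 4 + q3 J * (X ^ 2 + X ^ 3 + X ^ 7 + X ^ 8))).coeff d = 0 := by
  rw [neg_mul, coeff_neg, neg_eq_zero]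
  exact th_low' hd (1 + X + X ^ 2 + q3 J * (1 + X + X ^ 5 + X ^ 6)) (by ring)

private theorem l7e {J d : ℕ} (hd : d < 6 * J + 2) :
    (-th J * ((X ^ 2 + X ^ 3) * (1 + X ^ 5 - th J * X ^ 5))).coeff d = 0 := by
  rw [neg_mul, coeff_neg, neg_eq_zero]
  exact th_low' hd ((1 + X) * (1 + X ^ 5 - th J * X ^ 5)) (by ring)

theorem W7_low (J : ℕ) : (W7 J).Low (6 * J + 2) := fun _ hd => ⟨l4 hd, l7b hd, l6 hd, l7e hd⟩

/-- the coefficients of `q3` -/
private theorem q3_cases {J d : ℕ} (h : d < 6 * J + 2) : (d < 5 ∧ (q3 J).coeff d = 0) ∨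
    (d = 5 ∧ (q3 J).coeff d = 1) ∨
    (5 < d ∧ ((q3 J).coeff d = 0 ∨ (q3 J).coeff d = 1 ∨ (q3 J).coeff d = -1)) := by
  rw [q3_eq, add_mul, coeff_add, coeff_X_pow_mul', coeff_X_pow_mul']
  rcases lt_trichotomy d 5 with h5 | h5 | h5
  · left
    exact ⟨h5, by rw [if_neg (by omega), if_neg (by omega), add_zero]⟩
  · right; left
    refine ⟨h5, ?_⟩
    rw [if_pos (by omega), if_neg (by omega), add_zero, h5, gs_coeff, if_pos ⟨by norm_num, by omega⟩]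
    norm_num
  · right; right
    refine ⟨h5, ?_⟩
    rw [if_pos (by omega)]
    split_ifs with h7
    · rcases gs_cases J (d - 5) with h1 | ⟨h1, h2⟩
      · rcases gs_cases J (d - 7) with h3 | ⟨h3, h4⟩
        · rw [h1, h3]; simp
        · rw [h1, zero_add]
          exact Or.inr h4
      · rcases gs_cases J (d - 7) with h3 | ⟨h3, h4⟩
        · rw [h3, add_zero]
          exact Or.inr h2
        · omega
    · rw [add_zero]
      rcases gs_cases J (d - 5) with h1 | ⟨h1, h2⟩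
      · exact Or.inl h1
      · exact Or.inr h2

theorem two_S' (J : ℕ) : Relation.ReflTransGen (Mv (β2 (6 * J + 2))) W4 (W7 J) := by
  have hS := gs_mul J
  refine Relation.ReflTransGen.head (b := W5 J) (Mv.mL _ _ _ _ (-q1 J) _ _ _ _ ?_ ?_ ?_ ?_ ?_) ?_
  · rw [q1_eq, q3_eq]
    linear_combination (X ^ 2 + X ^ 3 + X ^ 4) * hS
  · rw [q1_eq, q3_eq]
    linear_combination (-(X ^ 2 + X ^ 3 + X ^ 4)) * hS
  · rw [q1_eq]
    linear_combination (X ^ 2 + X ^ 3) * hS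
  · rw [q1_eq]
    linear_combination (-(X ^ 2 + X ^ 3)) * hS
  · intro d
    unfold β2
    split_ifs with hd
    · simp only [coeff_add, coeff_sub, coeff_neg, cf, cL, m4]
      rw [l3 hd, l2 hd]
      rcases q3_cases hd with ⟨h, h'⟩ | ⟨h, h'⟩ | ⟨h, h'⟩
      · rw [h']
        interval_cases d <;> decide
      · rw [h', h]
        decide
      · rw [if_neg (by omega), if_neg (by omega), if_neg (by omega), if_neg (by omega)]
        rcases h' with h' | h' | h' <;> rw [h'] <;> simp <;> omega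
    · exact cL_le ((W4a_Bk d).trans (by norm_num)) ((W4b_Bk d).trans (by norm_num))
        ((W4c_Bk d).trans (by norm_num)) ((W4e_Bk d).trans (by norm_num))
        ((W5a_Bk J d).trans (by norm_num)) ((W5c_Bk J d).trans (by norm_num))
  refine Relation.ReflTransGen.head (b := W6 J) (Mv.m21 _ _ _ _ (X ^ 2 - X ^ 4) _ _ ?_ ?_ ?_) ?_
  · rw [q3_eq]
    linear_combination (X ^ 5) * hS
  · ring
  · intro d
    unfold β2
    split_ifs with hd
    · simp only [coeff_add, coeff_sub, coeff_neg, cf, c21, m4]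
      rw [l3 hd, l2 hd, l4 hd, l6 hd]
      rcases q3_cases hd with ⟨h, h'⟩ | ⟨h, h'⟩ | ⟨h, h'⟩
      · rw [h']
        interval_cases d <;> decide
      · rw [h', h]
        decide
      · rw [if_neg (by omega), if_neg (by omega), if_neg (by omega)]
        rcases h' with h' | h' | h' <;> rw [h'] <;> simp <;> omega
    · exact c21_le ((W5a_Bk J d).trans (by norm_num)) ((W5b_Bk J d).trans (by norm_num))
        ((W5c_Bk J d).trans (by norm_num)) ((W5e_Bk J d).trans (by norm_num))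
        ((W6a_Bk J d).trans (by norm_num)) ((W6c_Bk J d).trans (by norm_num))
  refine Relation.ReflTransGen.single (Mv.m12 _ _ _ _ (-q3 J) _ _ ?_ ?_ ?_)
  · ring
  · rw [q3_eq]
    linear_combination (th J * (X ^ 2 + X ^ 3) * X ^ 5) * hS
  · intro d
    unfold β2
    split_ifs with hd
    · simp only [coeff_sub, coeff_neg (th J * (X ^ 2 + X ^ 3)), c12, m4]
      rw [l3 hd, l2 hd, l4 hd, l6 hd, l7b hd, l7e hd]
      rcases q3_cases hd with ⟨h, h'⟩ | ⟨h, h'⟩ | ⟨h, h'⟩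
      · rw [h']
        interval_cases d <;> decide
      · rw [h', h]
        decide
      · rcases h' with h' | h' | h' <;> rw [h'] <;> simp <;> omega
    · exact c12_le ((W6a_Bk J d).trans (by norm_num)) ((W5b_Bk J d).trans (by norm_num))
        ((W6c_Bk J d).trans (by norm_num)) ((W5e_Bk J d).trans (by norm_num))
        ((W7b_Bk J d).trans (by norm_num)) ((W7e_Bk J d).trans (by norm_num))

theorem W7_M (J : ℕ) :
    (W7 J).M = x12 X * x21 X * x12 (-X - X ^ 2) * x21 (-X) * Lt (-q1 J) * x21 (X ^ 2 - X ^ 4) *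
      x12 (-q3 J) := by
  have hS := gs_mul J
  have e4 : x12 X * x21 X * x12 (-X - X ^ 2) * x21 (-X) = W4.M := by
    ext1 i j
    fin_cases i <;> fin_cases j <;>
      simp [x12, x21, W4, Q4.M, Matrix.mul_apply, Fin.sum_univ_two] <;> ring
  have e5 : W4.M * Lt (-q1 J) = (W5 J).M := by
    ext1 i j
    fin_cases i <;> fin_cases j <;>
      simp [Lt, W4, W5, Q4.M, Matrix.mul_apply, Fin.sum_univ_two, q1_eq, q3_eq]
    · linear_combination (-(X ^ 2 + X ^ 3 + X ^ 4)) * hS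
    · linear_combination (X ^ 2 + X ^ 3 + X ^ 4) * hS
    · linear_combination (-(X ^ 2 + X ^ 3)) * hS
    · linear_combination (X ^ 2 + X ^ 3) * hS
  have e6 : (W5 J).M * x21 (X ^ 2 - X ^ 4) = (W6 J).M := by
    ext1 i j
    fin_cases i <;> fin_cases j <;>
      simp [x21, W5, W6, Q4.M, Matrix.mul_apply, Fin.sum_univ_two, q3_eq]
    · linear_combination (-X ^ 5) * hS
    · ring
  have e7 : (W6 J).M * x12 (-q3 J) = (W7 J).M := by
    ext1 i j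
    fin_cases i <;> fin_cases j <;>
      simp [x12, W6, W7, Q4.M, Matrix.mul_apply, Fin.sum_univ_two, q3_eq]
    · ring
    · linear_combination (-th J * (X ^ 2 + X ^ 3) * X ^ 5) * hS
  rw [e4, e5, e6, e7]

end Pool.Agent.WFS.Rot
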