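import Pool.Agent.WFS.Rot.Gen
import Pool.Agent.WFS.Rot.Two

/-!
# The representatives of the rotations
-/

set_option autoImplicit false
set_option linter.unusedSectionVars false

noncomputable section

namespace Pool.Agent.WFS.Rot

open Polynomial Matrix Pool.Agent.WFS Pool.Agent.WFG

/-- the middle of the path -/
def Vq (m : ℕ) : Q4 := if m = 2 then W4 else G3 m

/-- the end of the path -/
def Yq (m J : ℕ) : Q4 := if m = 2 then W7 J else G7 m J

/-- the end is `1 mod X ^ Tr` -/
def Tr (m J : ℕ) : ℕ := if m = 2 then 6 * J + 2 else (J + 2) * m - 1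

/-- the representative of the rotation of level `m` -/
def Yr (m J : ℕ) : Matrix (Fin 2) (Fin 2) ℤ[X] := 1 - (Yq m J).E

theorem Yq_low {m : ℕ} (hm : 2 ≤ m) (J : ℕ) : (Yq m J).Low (Tr m J) := by
  by_cases h : m = 2
  · simp only [Yq, Tr, if_pos h]
    exact W7_low J
  · simp only [Yq, Tr, if_neg h]
    exact G7_low (by omega) J

theorem Yq_bd {m : ℕ} (hm : 2 ≤ m) (J : ℕ) : (Yq m J).Bd := by
  by_cases h : m = 2
  · simp only [Yq, if_pos h]
    exact W7_bd J
  · simp only [Yq, if_neg h]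
    exact G7_bd (by omega) J

theorem Vq_low {m : ℕ} (hm : 2 ≤ m) : (Vq m).Low 2 := by
  by_cases h : m = 2
  · simp only [Vq, if_pos h]
    exact W4_bd.2
  · simp only [Vq, if_neg h]
    exact (G3_bd (by omega)).2

theorem chain_S {m : ℕ} (hm : 2 ≤ m) :
    Relation.ReflTransGen (Mv (β1 (2 * m + 1))) ⟨0, 0, 0, 0⟩ (Vq m) := by
  have mono : ∀ {D D' : ℕ}, D ≤ D' → ∀ {q q' : Q4}, Relation.ReflTransGen (Mv (β1 D)) q q' →
      Relation.ReflTransGen (Mv (β1 D')) q q' := by
    intro D D' hD q q' h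
    have hb : ∀ d, β1 D d ≤ β1 D' d := by
      intro d
      unfold β1
      split_ifs <;> omega
    refine Relation.ReflTransGen.mono (p := Mv (β1 D')) (fun a b hab => ?_) _ _ h
    cases hab with
    | m12 a b c e s b' e' h1 h2 h => exact Mv.m12 a b c e s b' e' h1 h2 fun d => (h d).trans (hb d)
    | m21 a b c e s a' c' h1 h2 h => exact Mv.m21 a b c e s a' c' h1 h2 fun d => (h d).trans (hb d)
    | mL a b c e s a' b' c' e' h1 h2 h3 h4 h =>
      exact Mv.mL a b c e s a' b' c' e' h1 h2 h3 h4 fun d => (h d).trans (hb d)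
  by_cases h : m = 2
  · simp only [Vq, if_pos h]
    exact mono (by omega) two_S
  · simp only [Vq, if_neg h]
    exact mono (by omega) (gen_S (by omega))

theorem chain_S' {m : ℕ} (hm : 2 ≤ m) (J : ℕ) :
    Relation.ReflTransGen (Mv (β2 (Tr m J))) (Vq m) (Yq m J) := by
  by_cases h : m = 2
  · simp only [Vq, Yq, Tr, if_pos h]
    exact two_S' J
  · simp only [Vq, Yq, Tr, if_neg h]
    exact gen_S' (by omega) J

theorem Tr_le {m : ℕ} (hm : 2 ≤ m) (J : ℕ) : J ≤ Tr m J := by
  unfold Tr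
  split_ifs
  · omega
  · have : (J + 2) * 1 ≤ (J + 2) * m := Nat.mul_le_mul le_rfl (by omega)
    omega

end Pool.Agent.WFS.Rot
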