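import Pool.Agent.WFS.Rot.Lift
import Pool.Agent.WFS.Rot.Yq
import Pool.Agent.WFG.FaceSt

/-!
# The rotations

`rot`: a small matrix `M` is related to the block sum of `M` and `1 - Yr m J`, at a stage where a constant letter
of degree 1 is alive. `rot_all`: several rotations.
-/

set_option autoImplicit false
set_option linter.unusedSectionVars false

noncomputable section

namespace Pool.Agent.WFS.Rot

open Polynomial Matrix Pool.Agent.WFS Pool.Agent.WFG

variable {I J : Type} [Fintype I] [DecidableEq I] [Fintype J] [DecidableEq J]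

theorem mat_none_one {E : Matrix I I ℤ[X]} {w : Option I → ℤ[X]}
    (hE : ∀ i j, (E i j).coeff 1 = 0) (b : Option I) :
    (mat E w none b).coeff 1 = (w none).coeff 1 := by
  rcases b with _ | j
  · show (w none + 0).coeff 1 = _
    rw [add_zero]
  · show (w none + - ∑ i, E i j).coeff 1 = _
    rw [coeff_add, coeff_neg, Polynomial.finsetSum_coeff, Finset.sum_eq_zero fun i _ => hE i j]
    simp

theorem coeff_of_rm {E : Matrix I J ℤ[X]} {d : ℕ} (h : rm E d = 0) (i : I) (j : J) :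
    (E i j).coeff d = 0 := by
  have h1 : rmx E i d = 0 := by
    rw [rm_eq] at h
    exact (Finset.sum_eq_zero_iff.1 h) i (Finset.mem_univ i)
  have h2 := abs_le_rmx E i j d
  rw [h1] at h2
  exact abs_eq_zero.1 (le_antisymm (by simpa using h2) (abs_nonneg _))

theorem rm_zero {E : Matrix I J ℤ[X]} {d : ℕ} (h : ∀ i j, (E i j).coeff d = 0) : rm E d = 0 := by
  unfold rm
  simp [h]

/-- a small matrix has a legal column with a spare constant letter of degree 1 -/
theorem leg_one {κ : WFG.Num} (hκ : κ.Ok) {E : Matrix I I ℤ[X]}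
    (h : ∀ d, 2 * (rm E d : ℤ) ≤ κ.p.coeff d) (h1 : rm E 1 = 0) (hp : 1 ≤ κ.p.coeff 1) :
    ∃ w, Leg κ E w ∧ ∀ b, 1 ≤ (mat E w none b).coeff 1 := by
  obtain ⟨N, hN⟩ := exists_rm_bd E
  have hr : ∀ d, ((rm E d : ℕ) : ℤ) = ∑ i, (rmx E i d : ℤ) := fun d => by
    rw [rm_eq, Nat.cast_sum]
  have hf : ∀ (i : I) d, N ≤ d → (fun i d => (rmx E i d : ℤ)) i d = 0 := by
    intro i d hd
    simp [hN i d hd]
  refine ⟨_, leg_of_coeff hκ N (fun i d => (rmx E i d : ℤ)) hf ?_ ?_ ?_ ?_, ?_⟩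
  · intro i d
    positivity
  · intro i j d
    have := (abs_le.1 (abs_le_rmx E i j d)).1
    linarith
  · intro d
    rw [← hr]
    have h1 : (0 : ℤ) ≤ (rm E d : ℤ) := by positivity
    linarith [h d]
  · intro j d
    rw [← hr]
    have := (abs_le.1 (abs_sum_le_rm E j d)).2
    linarith [h d]
  · intro b
    rw [mat_none_one fun i j => coeff_of_rm h1 i j]
    show 1 ≤ (κ.p - ∑ i, polyOf N fun d => (rmx E i d : ℤ)).coeff 1
    rw [coeff_sub, Polynomial.finsetSum_coeff]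
    have h2 : ∀ i, (polyOf N fun d => (rmx E i d : ℤ)).coeff 1 = (rmx E i 1 : ℤ) := fun i =>
      polyOf_coeff N _ (hf i) 1
    rw [Finset.sum_congr rfl fun i _ => h2 i, ← hr, h1]
    simpa using hp

/-- the block sum has a legal column with a spare constant letter of degree 1 -/
theorem leg_Q4 {κ : WFG.Num} (hκ : κ.Ok) {M : Matrix I I ℤ[X]} {q : Q4} (hq : q.Low 2)
    (hM : rm M 1 = 0)
    (room : ∀ d, c0 (q.a.coeff d) (q.b.coeff d) (q.c.coeff d) (q.e.coeff d) + 2 * (rm M d : ℤ) ≤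
      κ.p.coeff d) :
    ∃ w, Leg κ (Matrix.fromBlocks M 0 0 q.E) w ∧
      ∀ b, (mat (Matrix.fromBlocks M 0 0 q.E) w none b).coeff 1 = κ.p.coeff 1 := by
  have hz : ∀ d, d < 2 → c0 (q.a.coeff d) (q.b.coeff d) (q.c.coeff d) (q.e.coeff d) = 0 := by
    intro d hd
    obtain ⟨h1, h2, h3, h4⟩ := hq d hd
    rw [h1, h2, h3, h4]
    rfl
  have e1 : q.b + 0 * (1 + q.a) = q.b := by ring
  have e2 : q.e + 0 * q.c = q.e := by ring
  obtain ⟨P, hP, w, w', x, u, h1, h2, h3, h4, h5, h6, h7⟩ := stp12 q.a q.b q.c q.e 0 (by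
    rw [e1, e2]
    exact (hz 0 (by norm_num)).le)
  rw [e1, e2] at hP
  obtain ⟨m, hm⟩ := exists_rowmax M
  have hL := leg_ext hκ hm h1 h3 (fun d => by rw [hP d]; exact room d)
  refine ⟨_, hL, fun b => ?_⟩
  have hw : ∀ a, 0 ≤ (w a).coeff 1 := by
    intro a
    have := (h3 a none).2 1
    rcases a with _ | a
    · have e : mat (Em q.a q.b q.c q.e) w none none = w none := add_zero _
      rwa [e] at this
    · have e : mat (Em q.a q.b q.c q.e) w (some a) none = w (some a) := add_zero _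
      rwa [e] at this
  have hw0 : ∑ a, (w a).coeff 1 = 0 := by
    rw [← Polynomial.finsetSum_coeff, h1, hP]
    exact hz 1 (by norm_num)
  have hw1 : ∀ a, (w a).coeff 1 = 0 := fun a =>
    (Finset.sum_eq_zero_iff_of_nonneg fun i _ => hw i).1 hw0 a (Finset.mem_univ a)
  rw [mat_none_one]
  · show (κ.p - ∑ i, m i - ∑ j, w (some j)).coeff 1 = _
    rw [coeff_sub, coeff_sub, Polynomial.finsetSum_coeff, Polynomial.finsetSum_coeff,
      Finset.sum_congr rfl fun i _ => hm i 1, Finset.sum_congr rfl fun j _ => hw1 (some j)]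
    have : (∑ i, (rmx M i 1 : ℤ)) = 0 := by
      have h8 := hM
      rw [rm_eq] at h8
      exact_mod_cast h8
    rw [this]
    simp
  · rintro (i | i) (j | j)
    · exact coeff_of_rm hM i j
    · show (0 : ℤ[X]).coeff 1 = 0
      simp
    · show (0 : ℤ[X]).coeff 1 = 0
      simp
    · obtain ⟨g1, g2, g3, g4⟩ := hq 1 (by norm_num)
      show (q.E i j).coeff 1 = 0
      fin_cases i <;> fin_cases j <;> simp [Q4.E, Em, g1, g2, g3, g4]

theorem ev_coeff (κ : WFG.Num) (h d : ℕ) : (κ.ev 1 h).p.coeff d =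
    ∑ m ∈ Finset.range h, if m ≤ d then (κ.p - X ^ 1).coeff (d - m) else 0 := by
  show ((κ.p - X ^ 1) * ∑ m ∈ Finset.range h, X ^ (1 * m)).coeff d = _
  rw [Finset.mul_sum, Polynomial.finsetSum_coeff]
  refine Finset.sum_congr rfl fun m _ => ?_
  rw [one_mul, Polynomial.coeff_mul_X_pow']

theorem sub_nonneg' {κ : WFG.Num} (hκ : κ.Ok) (h1 : 1 ≤ κ.p.coeff 1) (d : ℕ) :
    0 ≤ (κ.p - X ^ 1).coeff d := by
  rw [coeff_sub, Polynomial.coeff_X_pow]
  split_ifs with h
  · subst h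
    linarith
  · have := hκ.p.2 d
    linarith

theorem ev_ge {κ : WFG.Num} (hκ : κ.Ok) (h1 : 1 ≤ κ.p.coeff 1) {h : ℕ} (hh : 1 ≤ h) {d : ℕ}
    (hd : d ≠ 1) : κ.p.coeff d ≤ (κ.ev 1 h).p.coeff d := by
  rw [ev_coeff]
  have h2 : κ.p.coeff d = if 0 ≤ d then (κ.p - X ^ 1).coeff (d - 0) else 0 := by
    rw [if_pos (Nat.zero_le _), Nat.sub_zero, coeff_sub, Polynomial.coeff_X_pow, if_neg hd, sub_zero]
  rw [h2]
  refine Finset.single_le_sum (f := fun m => if m ≤ d then (κ.p - X ^ 1).coeff (d - m) else 0)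
    (fun m _ => ?_) (Finset.mem_range.2 hh)
  show 0 ≤ if m ≤ d then _ else _
  split_ifs
  · exact sub_nonneg' hκ h1 _
  · exact le_rfl

theorem ev_two {κ : WFG.Num} (hκ : κ.Ok) (h1 : 1 ≤ κ.p.coeff 1) (h2 : 1 ≤ κ.p.coeff 2)
    (h3 : 1 ≤ κ.p.coeff 3) {h d : ℕ} (hd : 3 ≤ d) (hdh : d < h) : 2 ≤ (κ.ev 1 h).p.coeff d := by
  rw [ev_coeff]
  have key : ∑ m ∈ ({d - 2, d - 3} : Finset ℕ),
      (if m ≤ d then (κ.p - X ^ 1).coeff (d - m) else 0) ≤
      ∑ m ∈ Finset.range h, if m ≤ d then (κ.p - X ^ 1).coeff (d - m) else 0 := by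
    refine Finset.sum_le_sum_of_subset_of_nonneg ?_ ?_
    · intro m hm
      simp only [Finset.mem_insert, Finset.mem_singleton] at hm
      rw [Finset.mem_range]
      omega
    · intro m _ _
      split_ifs
      · exact sub_nonneg' hκ h1 _
      · exact le_rfl
  refine le_trans ?_ key
  rw [Finset.sum_pair (by omega), if_pos (by omega), if_pos (by omega)]
  have e1 : d - (d - 2) = 2 := by omega
  have e2 : d - (d - 3) = 3 := by omega
  rw [e1, e2, coeff_sub, coeff_sub, Polynomial.coeff_X_pow, Polynomial.coeff_X_pow]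
  norm_num
  linarith

theorem rm_blocks_le (M : Matrix I I ℤ[X]) (Y : Matrix J J ℤ[X]) (d : ℕ) :
    rm (Matrix.fromBlocks M 0 0 Y) d ≤ rm M d + rm Y d := by
  unfold rm
  rw [Fintype.sum_sum_type]
  refine add_le_add (Finset.sum_le_sum fun i _ => ?_) (Finset.sum_le_sum fun i _ => ?_)
  · refine Finset.sup_le fun b _ => ?_
    rcases b with b | b
    · exact Finset.le_sup (f := fun j => ((M i j).coeff d).natAbs) (Finset.mem_univ b)
    · show ((0 : ℤ[X]).coeff d).natAbs ≤ _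
      simp
  · refine Finset.sup_le fun b _ => ?_
    rcases b with b | b
    · show ((0 : ℤ[X]).coeff d).natAbs ≤ _
      simp
    · exact Finset.le_sup (f := fun j => ((Y i j).coeff d).natAbs) (Finset.mem_univ b)

theorem rm_E_le {q : Q4} (hq : q.Bd) (d : ℕ) : rm q.E d ≤ 48 := by
  obtain ⟨h1, h2, h3, h4⟩ := hq d
  rw [abs_le] at h1 h2 h3 h4
  have r0 : (Finset.univ.sup fun j => ((q.E 0 j).coeff d).natAbs) ≤ 32 := by
    refine Finset.sup_le fun b _ => ?_
    fin_cases b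
    · show ((q.c - q.a).coeff d).natAbs ≤ 32
      rw [coeff_sub]
      omega
    · show ((q.c - q.a + q.e - q.b).coeff d).natAbs ≤ 32
      rw [coeff_sub, coeff_add, coeff_sub]
      omega
  have r1 : (Finset.univ.sup fun j => ((q.E 1 j).coeff d).natAbs) ≤ 16 := by
    refine Finset.sup_le fun b _ => ?_
    fin_cases b
    · show ((-q.c).coeff d).natAbs ≤ 16
      rw [coeff_neg]
      omega
    · show ((-q.c - q.e).coeff d).natAbs ≤ 16
      rw [coeff_sub, coeff_neg]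
      omega
  unfold rm
  rw [Fin.sum_univ_two]
  omega

theorem rm_E_low {q : Q4} {T : ℕ} (hq : q.Low T) {d : ℕ} (hd : d < T) : rm q.E d = 0 := by
  obtain ⟨h1, h2, h3, h4⟩ := hq d hd
  refine rm_zero fun i j => ?_
  fin_cases i <;> fin_cases j <;> simp [Q4.E, Em, h1, h2, h3, h4]

theorem one_E (m J : ℕ) : 1 - Yr m J = (Yq m J).E := by
  unfold Yr
  rw [sub_sub_cancel]

theorem zero_E : (⟨0, 0, 0, 0⟩ : Q4).E = 0 := by
  ext1 i j
  fin_cases i <;> fin_cases j <;> simp [Q4.E, Em]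

theorem isUnit_Yr {m : ℕ} (hm : 2 ≤ m) (J : ℕ) : IsUnit (1 - (Yq m J).E).det := by
  have h0 : IsUnit (1 - (⟨0, 0, 0, 0⟩ : Q4).E).det := by
    rw [zero_E, sub_zero, Matrix.det_one]
    exact isUnit_one
  have h1 := (relE_chain (β := β1 (2 * m + 1)) (by simp [β1]) (chain_S hm) h0).1
  have hT : 0 < Tr m J := by
    unfold Tr
    split_ifs
    · omega
    · have : (J + 2) * 2 ≤ (J + 2) * m := Nat.mul_le_mul le_rfl hm
      omega
  exact (relE_chain (β := β2 (Tr m J)) (by simp [β2, hT]) (chain_S' hm J) h1).1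

/-- ROTATION -/
theorem rot {m J T : ℕ} (hm : 2 ≤ m) (hT : 2 * m + 1 < T) (hTr : T ≤ Tr m J) :
    ∃ Dl : ℕ, (∀ d, Dl < d → rm (Yq m J).E d = 0) ∧ ∀ κ : WFG.Num, κ.Ok →
      ∀ (I : Type) [Fintype I] [DecidableEq I] (M : Matrix I I ℤ[X]), IsUnit (1 - M).det →
      (∀ i j d, d < T → (M i j).coeff d = 0) →
      (∀ d, 1 ≤ d → d ≤ 2 * m + 1 → 1 ≤ κ.p.coeff d) →
      (∀ d, 2 * (rm M d : ℤ) ≤ κ.p.coeff d) →
      (∀ d, T ≤ d → d ≤ Dl → 100 + 2 * (rm M d : ℤ) ≤ κ.p.coeff d) →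
      RelE κ M (Matrix.fromBlocks M 0 0 (Yq m J).E) := by
  have h0 : IsUnit (1 - (⟨0, 0, 0, 0⟩ : Q4).E).det := by
    rw [zero_E, sub_zero, Matrix.det_one]
    exact isUnit_one
  obtain ⟨hV, D1, hD1⟩ := relE_chain (β := β1 (2 * m + 1)) (by simp [β1]) (chain_S hm) h0
  obtain ⟨hY, D2, hD2⟩ := relE_chain (β := β2 (Tr m J)) (by simp [β2]; omega) (chain_S' hm J) hV
  obtain ⟨D3, hD3⟩ := exists_rm_bd (Yq m J).E
  refine ⟨max D3 (max D1 D2), fun d hd => ?_, fun κ hκ I _ _ M hM hM0 hp hr hR => ?_⟩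
  · rw [rm_eq]
    refine Finset.sum_eq_zero fun i _ => hD3 i d ?_
    omega
  have hrz : ∀ d, d < T → rm M d = 0 := fun d hd => rm_zero fun i j => hM0 i j d hd
  have hp1 := hp 1 (by omega) (by omega)
  have hp2 := hp 2 (by omega) (by omega)
  have hp3 := hp 3 (by omega) (by omega)
  set h := max D3 (max D1 D2) + 1 with hh
  set κ' := κ.ev 1 h with hκ'
  have ok' : κ'.Ok := ok_ev hκ 1 h le_rfl (by omega) hp1
  -- the room at the second stage
  have g0 : ∀ d, 0 ≤ κ'.p.coeff d := ok'.p.2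
  have g1 : ∀ d, d ≠ 1 → κ.p.coeff d ≤ κ'.p.coeff d := fun d hd => ev_ge hκ hp1 (by omega) hd
  have g2 : ∀ d, 3 ≤ d → d < h → 2 ≤ κ'.p.coeff d := fun d hd hdh => ev_two hκ hp1 hp2 hp3 hd hdh
  have hr' : ∀ d, 2 * (rm M d : ℤ) ≤ κ'.p.coeff d := by
    intro d
    by_cases hd : d = 1
    · rw [hd, hrz 1 (by omega)]
      simpa using g0 1
    · exact (hr d).trans (g1 d hd)
  -- stage S
  have hβ1 : ∀ d, β1 (2 * m + 1) d + 2 * (rm M d : ℤ) ≤ κ.p.coeff d := by
    intro d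
    by_cases hd : 1 ≤ d ∧ d ≤ 2 * m + 1
    · rw [hrz d (by omega)]
      unfold β1
      rw [if_pos hd]
      simpa using hp d hd.1 hd.2
    · unfold β1
      rw [if_neg hd, zero_add]
      exact hr d
  have hstab : RelE κ M (Matrix.fromBlocks M 0 0 (⟨0, 0, 0, 0⟩ : Q4).E) := by
    rw [zero_E]
    exact relE_stab hκ hM
  have hc0 : ∀ d, c0 ((0 : ℤ[X]).coeff d) ((0 : ℤ[X]).coeff d) ((0 : ℤ[X]).coeff d)
      ((0 : ℤ[X]).coeff d) = 0 := by
    intro d
    simp [c0, c12, m4]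
  obtain ⟨w0, hw0, -⟩ := leg_Q4 (q := ⟨0, 0, 0, 0⟩) hκ (fun d _ => by simp) (hrz 1 (by omega))
    (fun d => by rw [hc0, zero_add]; exact hr d)
  obtain ⟨hS, -⟩ := hD1 κ hκ I M hM (fun d _ => hβ1 d) hr ⟨w0, hw0⟩
  have hA : RelE κ M (Matrix.fromBlocks M 0 0 (Vq m).E) := hstab.trans hκ ⟨w0, hw0⟩ hS
  -- the costs of `Vq`
  have hVc : ∀ d, c0 ((Vq m).a.coeff d) ((Vq m).b.coeff d) ((Vq m).c.coeff d) ((Vq m).e.coeff d) ≤
      β1 (2 * m + 1) d := by
    intro d
    rcases Relation.ReflTransGen.cases_tail (chain_S hm) with h | ⟨q, -, h⟩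
    · rw [h]
      show c0 ((0 : ℤ[X]).coeff d) ((0 : ℤ[X]).coeff d) ((0 : ℤ[X]).coeff d)
        ((0 : ℤ[X]).coeff d) ≤ _
      rw [hc0]
      unfold β1
      split_ifs <;> norm_num
    · exact h.single d
  have hVz : ∀ d, d < 2 → c0 ((Vq m).a.coeff d) ((Vq m).b.coeff d) ((Vq m).c.coeff d)
      ((Vq m).e.coeff d) = 0 := by
    intro d hd
    obtain ⟨k1, k2, k3, k4⟩ := Vq_low hm d hd
    rw [k1, k2, k3, k4]
    rfl
  -- the event
  obtain ⟨wM, hwM, hwM1⟩ := leg_one hκ hr (hrz 1 (by omega)) hp1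
  obtain ⟨wV, hwV, hwV1⟩ := leg_Q4 hκ (Vq_low hm) (hrz 1 (by omega))
    (fun d => (add_le_add_left (hVc d) _).trans (hβ1 d))
  have hB : RelE κ' M (Matrix.fromBlocks M 0 0 (Vq m).E) :=
    (relE_ev' hκ hM (det_blocks hM hV) 1 h le_rfl (by omega) hwM hwV none none hwM1
      (fun b => by rw [hwV1 b]; exact hp1)).1 hA
  -- stage S'
  obtain ⟨wV', hwV', -⟩ := leg_Q4 ok' (Vq_low hm) (hrz 1 (by omega)) (fun d => by
    by_cases hd : d < 2
    · rw [hVz d hd, zero_add]
      exact hr' d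
    · exact ((add_le_add_left (hVc d) _).trans (hβ1 d)).trans (g1 d (by omega)))
  obtain ⟨hS', hLY'⟩ := hD2 κ' ok' I M hM (fun d hd => by
    by_cases hd1 : d < T
    · rw [hrz d hd1]
      have hd2 : d < h := by omega
      unfold β2
      rw [if_pos (by omega : d < Tr m J)]
      by_cases hd3 : 3 ≤ d
      · have := g2 d hd3 hd2
        have h4 : min ((d - 1 : ℕ) : ℤ) 2 ≤ 2 := min_le_right _ _
        push_cast at *
        linarith
      · by_cases hd4 : d = 2
        · subst hd4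
          have := (hp2.trans (g1 2 (by norm_num)))
          norm_num
          exact this
        · have h5 : d - 1 = 0 := by omega
          rw [h5]
          simpa using g0 d
    · have h6 := (hR d (by omega) (by omega)).trans (g1 d (by omega))
      have h7 : β2 (Tr m J) d ≤ 100 := by
        unfold β2
        split_ifs
        · exact (min_le_right _ _).trans (by norm_num)
        · exact le_rfl
      linarith) hr' ⟨wV', hwV'⟩
  have hC : RelE κ' M (Matrix.fromBlocks M 0 0 (Yq m J).E) := hB.trans ok' ⟨wV', hwV'⟩ hS'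
  -- back
  have hYr : ∀ d, 2 * (rm (Matrix.fromBlocks M 0 0 (Yq m J).E) d : ℤ) ≤ κ.p.coeff d := by
    intro d
    have h1 : (rm (Matrix.fromBlocks M 0 0 (Yq m J).E) d : ℤ) ≤ rm M d + rm (Yq m J).E d := by
      exact_mod_cast rm_blocks_le M (Yq m J).E d
    by_cases hd : d < T
    · have h2 : rm (Yq m J).E d = 0 := rm_E_low (Yq_low hm J) (by omega)
      rw [h2] at h1
      have := hr d
      push_cast at h1
      linarith
    · by_cases hd2 : d ≤ max D3 (max D1 D2)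
      · have h3 := rm_E_le (Yq_bd hm J) d
        have h4 := hR d (by omega) hd2
        have h5 : (rm (Yq m J).E d : ℤ) ≤ 48 := by exact_mod_cast h3
        linarith
      · have h2 : rm (Yq m J).E d = 0 := by
          rw [rm_eq]
          exact Finset.sum_eq_zero fun i _ => hD3 i d (by omega)
        rw [h2] at h1
        have := hr d
        push_cast at h1
        linarith
  have hY1 : rm (Matrix.fromBlocks M 0 0 (Yq m J).E) 1 = 0 := by
    have h1 := rm_blocks_le M (Yq m J).E 1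
    rw [hrz 1 (by omega), rm_E_low (Yq_low hm J) (by omega)] at h1
    omega
  obtain ⟨wY, hwY, hwY1⟩ := leg_one hκ hYr hY1 hp1
  exact (relE_ev' hκ hM (det_blocks hM hY) 1 h le_rfl (by omega) hwM hwY none none hwM1 hwY1).2 hC

end Pool.Agent.WFS.Rot
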