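import Pool.Agent.WFS.Rot.Main
import Pool.Agent.WFG.Bridge

/-!
# Sizes in the weighted norm
-/

set_option autoImplicit false
set_option linter.unusedSectionVars false

noncomputable section

namespace Pool.Agent.WFS.Rot

open Polynomial Matrix Pool.Agent.WFS Pool.Agent.WFG Pool.WFS.Lad

variable {ι : Type} [Fintype ι] [DecidableEq ι]

/-- the weighted norm, as a sum over the degrees `≤ Δ` -/
theorem wz_eq {r : ℝ} {p : ℤ[X]} {Δ : ℕ} (h : ∀ d, Δ < d → p.coeff d = 0) :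
    wz r p = ∑ d ∈ Finset.range (Δ + 1), |(p.coeff d : ℝ)| * r ^ d := by
  unfold wz
  rw [wn_eq r _ (s := Finset.range (Δ + 1))]
  · refine Finset.sum_congr rfl fun d _ => ?_
    rw [coeff_iz]
  · intro d hd
    rw [Finset.mem_range]
    by_contra hc
    rw [Polynomial.mem_support_iff, coeff_iz] at hd
    exact hd (by rw [h d (by omega)]; simp)

theorem abs_le_rmx' (E : Matrix ι ι ℤ[X]) (i j : ι) (d : ℕ) :
    |((E i j).coeff d : ℝ)| ≤ (rmx E i d : ℝ) := by
  have := abs_le_rmx E i j d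
  exact_mod_cast this

/-- small coefficients give a small norm -/
theorem sm_of_rm {r e : ℝ} (hr : 0 ≤ r) {E : Matrix ι ι ℤ[X]} {Δ : ℕ}
    (h : ∀ d, Δ < d → rm E d = 0)
    (he : ∑ d ∈ Finset.range (Δ + 1), (rm E d : ℝ) * r ^ d ≤ e) : Sm (wz r) e E := by
  refine ⟨fun i => ∑ d ∈ Finset.range (Δ + 1), (rmx E i d : ℝ) * r ^ d, fun i => ?_, fun i j => ?_,
    ?_⟩
  · positivity
  · rw [wz_eq fun d hd => coeff_of_rm (h d hd) i j]
    exact Finset.sum_le_sum fun d _ =>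
      mul_le_mul_of_nonneg_right (abs_le_rmx' E i j d) (pow_nonneg hr d)
  · rw [Finset.sum_comm]
    refine le_trans (le_of_eq ?_) he
    refine Finset.sum_congr rfl fun d _ => ?_
    rw [← Finset.sum_mul, rm_eq, Nat.cast_sum]

theorem nr_of_rm {r e : ℝ} (hr : 0 ≤ r) {g : SL ι ℤ[X]} {Δ : ℕ}
    (h : ∀ d, Δ < d → rm ((g : Matrix ι ι ℤ[X]) - 1) d = 0)
    (he : ∑ d ∈ Finset.range (Δ + 1), (rm ((g : Matrix ι ι ℤ[X]) - 1) d : ℝ) * r ^ d ≤ e) :
    nr (wz r) e g := sm_of_rm hr h he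

/-- the same with `1 - g` -/
theorem nr_of_rm' {r e : ℝ} (hr : 0 ≤ r) {g : SL ι ℤ[X]} {E : Matrix ι ι ℤ[X]}
    (hg : (g : Matrix ι ι ℤ[X]) = 1 - E) {Δ : ℕ} (h : ∀ d, Δ < d → rm E d = 0)
    (he : ∑ d ∈ Finset.range (Δ + 1), (rm E d : ℝ) * r ^ d ≤ e) : nr (wz r) e g := by
  have e1 : ∀ d, rm ((g : Matrix ι ι ℤ[X]) - 1) d = rm E d := by
    intro d
    rw [rm_sub_comm, hg, sub_sub_cancel]
  refine nr_of_rm hr (Δ := Δ) (fun d hd => by rw [e1, h d hd]) ?_
  rw [Finset.sum_congr rfl fun d _ => by rw [e1 d]]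
  exact he

/-- coefficients `≤ c` in absolute value in the degrees `≥ T` only -/
theorem sm_of_tail {r e c : ℝ} (hr : 0 ≤ r) (hr1 : r < 1) (hc : 0 ≤ c) {E : Matrix ι ι ℤ[X]} {T : ℕ}
    (h0 : ∀ d, d < T → rm E d = 0) (hb : ∀ d, (rm E d : ℝ) ≤ c) (he : c * r ^ T / (1 - r) ≤ e) :
    Sm (wz r) e E := by
  obtain ⟨N, hN⟩ := exists_rm_bd E
  have hN' : ∀ d, N < d → rm E d = 0 := fun d hd => by
    rw [rm_eq]
    exact Finset.sum_eq_zero fun i _ => hN i d hd.le
  refine sm_of_rm hr hN' (le_trans ?_ he)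
  have h1 : ∀ d ∈ Finset.range (N + 1), (rm E d : ℝ) * r ^ d ≤
      if T ≤ d then c * r ^ d else 0 := by
    intro d _
    split_ifs with hd
    · exact mul_le_mul_of_nonneg_right (hb d) (pow_nonneg hr d)
    · rw [h0 d (by omega)]
      simp
  refine (Finset.sum_le_sum h1).trans ?_
  have h2 : Summable fun d => c * r ^ (d + T) := by
    have := (summable_geometric_of_lt_one hr hr1).mul_left (c * r ^ T)
    refine this.congr fun d => ?_
    rw [pow_add]
    ring
  have h3 : ∑ d ∈ Finset.range (N + 1), (if T ≤ d then c * r ^ d else 0) ≤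
      ∑' d, c * r ^ (d + T) := by
    have h4 : ∑ d ∈ Finset.range (N + 1), (if T ≤ d then c * r ^ d else 0) ≤
        ∑ d ∈ Finset.range (N + 1), c * r ^ (d + T) := by
      by_cases hT : T ≤ N + 1
      · rw [← Finset.sum_filter]
        have h5 : (Finset.range (N + 1)).filter (fun d => T ≤ d) =
            (Finset.range (N + 1 - T)).image (fun d => d + T) := by
          ext d
          simp only [Finset.mem_filter, Finset.mem_range, Finset.mem_image]
          constructor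
          · rintro ⟨h1, h2⟩
            exact ⟨d - T, by omega, by omega⟩
          · rintro ⟨a, ha, rfl⟩
            omega
        rw [h5, Finset.sum_image (by intro a _ b _ h; simpa using h)]
        refine Finset.sum_le_sum_of_subset_of_nonneg ?_ fun d _ _ => by positivity
        intro d hd
        rw [Finset.mem_range] at *
        omega
      · rw [Finset.sum_eq_zero]
        · positivity
        · intro d hd
          rw [Finset.mem_range] at hd
          rw [if_neg (by omega)]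
    exact h4.trans (h2.sum_le_tsum _ fun d _ => by positivity)
  refine h3.trans (le_of_eq ?_)
  have h6 : ∀ d, c * r ^ (d + T) = c * r ^ T * r ^ d := fun d => by
    rw [pow_add]
    ring
  rw [tsum_congr h6, tsum_mul_left, tsum_geometric_of_lt_one hr hr1]
  rfl

/-- the size of a rotation block -/
theorem nr_of_Yq {r e : ℝ} (hr : 0 ≤ r) (hr1 : r < 1) {m J T : ℕ} (hm : 2 ≤ m) (hT : T ≤ Tr m J)
    (he : 48 * r ^ T / (1 - r) ≤ e) {g : SL (Fin 2) ℤ[X]}
    (hg : (g : Matrix (Fin 2) (Fin 2) ℤ[X]) = 1 - (Yq m J).E) : nr (wz r) e g := by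
  have h := sm_of_tail (E := (Yq m J).E) hr hr1 (by norm_num : (0 : ℝ) ≤ 48) (T := T)
    (fun d hd => rm_E_low (Yq_low hm J) (lt_of_lt_of_le hd hT))
    (fun d => by exact_mod_cast rm_E_le (Yq_bd hm J) d) he
  have h2 : (g : Matrix (Fin 2) (Fin 2) ℤ[X]) - 1 = -(Yq m J).E := by
    rw [hg]
    abel
  show Sm (wz r) e ((g : Matrix (Fin 2) (Fin 2) ℤ[X]) - 1)
  rw [h2]
  obtain ⟨b, hb0, hb1, hb2⟩ := h
  exact ⟨b, hb0, fun i j => by rw [Matrix.neg_apply, (wz_isN hr).neg]; exact hb1 i j, hb2⟩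

theorem exists_T {r e : ℝ} (hr : 0 ≤ r) (hr1 : r < 1) (he : 0 < e) (T0 : ℕ) :
    ∃ T, T0 ≤ T ∧ 48 * r ^ T / (1 - r) ≤ e := by
  have h1 : 0 < 1 - r := by linarith
  obtain ⟨n, hn⟩ := exists_pow_lt_of_lt_one (div_pos (mul_pos he h1) (by norm_num : (0 : ℝ) < 48)) hr1
  refine ⟨max T0 n, le_max_left _ _, ?_⟩
  rw [div_le_iff₀ h1]
  have h2 : r ^ max T0 n ≤ r ^ n := pow_le_pow_of_le_one hr hr1.le (le_max_right _ _)
  have h3 := hn.le
  rw [le_div_iff₀ (by norm_num)] at h3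
  linarith

end Pool.Agent.WFS.Rot
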