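import Pool.Agent.WFS.Rot.Main

/-!
# Several rotations
-/

set_option autoImplicit false
set_option linter.unusedSectionVars false

noncomputable section

namespace Pool.Agent.WFS.Rot

open Polynomial Matrix Pool.Agent.WFS Pool.Agent.WFG

/-- the block sum of the `1 - Yr` -/
def fam {b : ℕ} (m J : Fin b → ℕ) : Matrix (Fin 2 × Fin b) (Fin 2 × Fin b) ℤ[X] :=
  Matrix.blockDiagonal fun i => (Yq (m i) (J i)).E

/-- the first block is split off -/
def eqv (b : ℕ) : Fin 2 × Fin (b + 1) ≃ (Fin 2 × Fin b) ⊕ Fin 2 where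
  toFun x := Fin.cases (Sum.inr x.1) (fun i => Sum.inl (x.1, i)) x.2
  invFun y := match y with
    | Sum.inl (k, i) => (k, i.succ)
    | Sum.inr k => (k, 0)
  left_inv := by
    rintro ⟨k, i⟩
    refine Fin.cases ?_ (fun i => ?_) i
    · rfl
    · rfl
  right_inv := by
    rintro (⟨k, i⟩ | k)
    · rfl
    · rfl

theorem fam_succ {b : ℕ} (m J : Fin (b + 1) → ℕ) :
    (Matrix.fromBlocks (fam (fun i => m i.succ) (fun i => J i.succ)) 0 0
      (Yq (m 0) (J 0)).E).submatrix (eqv b) (eqv b) = fam m J := by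
  ext1 ⟨k, i⟩ ⟨l, j⟩
  refine Fin.cases ?_ (fun i => ?_) i
  · refine Fin.cases ?_ (fun j => ?_) j
    · show (Yq (m 0) (J 0)).E k l = fam m J (k, 0) (l, 0)
      simp [fam, Matrix.blockDiagonal_apply]
    · show 0 = fam m J (k, 0) (l, j.succ)
      simp [fam, Matrix.blockDiagonal_apply, (Fin.succ_ne_zero j).symm]
  · refine Fin.cases ?_ (fun j => ?_) j
    · show 0 = fam m J (k, i.succ) (l, 0)
      simp [fam, Matrix.blockDiagonal_apply, Fin.succ_ne_zero i]
    · show fam (fun i => m i.succ) (fun i => J i.succ) (k, i) (l, j) =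
        fam m J (k, i.succ) (l, j.succ)
      simp [fam, Matrix.blockDiagonal_apply]

theorem rm_submatrix {I J : Type} [Fintype I] [DecidableEq I] [Fintype J] [DecidableEq J]
    (E : Matrix I I ℤ[X]) (e : J ≃ I) (d : ℕ) : rm (E.submatrix e e) d = rm E d := by
  unfold rm
  rw [← Equiv.sum_comp e]
  refine Finset.sum_congr rfl fun i _ => ?_
  refine le_antisymm (Finset.sup_le fun j _ => ?_) (Finset.sup_le fun j _ => ?_)
  · exact Finset.le_sup (f := fun j => ((E (e i) j).coeff d).natAbs) (Finset.mem_univ (e j))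
  · have := Finset.le_sup (f := fun j => (((E.submatrix e e) i j).coeff d).natAbs)
      (Finset.mem_univ (e.symm j))
    simpa using this

/-- the properties of the family -/
theorem rot_all (b : ℕ) (m J : Fin b → ℕ) (T D0 : ℕ) (hm : ∀ i, 2 ≤ m i)
    (hD0 : ∀ i, 2 * m i + 1 ≤ D0) (hT : D0 < T) (hTr : ∀ i, T ≤ Tr (m i) (J i)) :
    IsUnit (1 - fam m J).det ∧ (∀ i j d, d < T → (fam m J i j).coeff d = 0) ∧
      (∀ d, rm (fam m J) d ≤ 48 * b) ∧ ∃ Dl : ℕ, (∀ d, Dl < d → rm (fam m J) d = 0) ∧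
      ∀ κ : WFG.Num, κ.Ok → (∀ d, 1 ≤ d → d ≤ D0 → 1 ≤ κ.p.coeff d) →
        (∀ d, T ≤ d → d ≤ Dl → 100 * ((b : ℤ) + 1) ≤ κ.p.coeff d) →
        (∀ d, 2 * (rm (fam m J) d : ℤ) ≤ κ.p.coeff d) ∧
        RelE κ (0 : Matrix (Fin 0) (Fin 0) ℤ[X]) (fam m J) := by
  induction b with
  | zero =>
    have hz : fam m J = 0 := by
      ext1 ⟨k, i⟩ ⟨l, j⟩
      exact i.elim0
    refine ⟨?_, ?_, ?_, 0, ?_, ?_⟩
    · rw [hz, sub_zero, Matrix.det_one]
      exact isUnit_one
    · rintro ⟨k, i⟩
      exact i.elim0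
    · intro d
      rw [hz, rm_zero fun i j => by simp]
    · intro d _
      rw [hz, rm_zero fun i j => by simp]
    · intro κ hκ _ _
      rw [hz]
      refine ⟨fun d => ?_, relE_zero hκ⟩
      rw [rm_zero fun i j => by simp]
      simpa using hκ.p.2 d
  | succ b ih =>
    obtain ⟨h1, h2, h3, D1, h4, h5⟩ := ih (fun i => m i.succ) (fun i => J i.succ)
      (fun i => hm _) (fun i => hD0 _) (fun i => hTr _)
    obtain ⟨D2, h6, h7⟩ := rot (hm 0) (lt_of_le_of_lt (hD0 0) hT) (hTr 0)
    set F := fam (fun i => m i.succ) (fun i => J i.succ) with hF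
    set Y := (Yq (m 0) (J 0)).E with hY
    have hU : IsUnit (1 - Matrix.fromBlocks F 0 0 Y).det := det_blocks h1 (isUnit_Yr (hm 0) _)
    have hrm : ∀ d, rm (fam m J) d ≤ rm F d + rm Y d := by
      intro d
      rw [← fam_succ m J, rm_submatrix]
      exact rm_blocks_le _ _ _
    have hlow : ∀ d, d < T → rm (fam m J) d = 0 := by
      intro d hd
      have e1 : rm F d = 0 := rm_zero fun i j => h2 i j d hd
      have e2 : rm Y d = 0 := rm_E_low (Yq_low (hm 0) _) (lt_of_lt_of_le hd (hTr 0))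
      have := hrm d
      omega
    have h48 : ∀ d, rm (fam m J) d ≤ 48 * (b + 1) := by
      intro d
      have e1 := h3 d
      have e2 : rm Y d ≤ 48 := rm_E_le (Yq_bd (hm 0) _) d
      have := hrm d
      omega
    have hhigh : ∀ d, max D1 D2 < d → rm (fam m J) d = 0 := by
      intro d hd
      have e1 := h4 d (by omega)
      have e2 := h6 d (by omega)
      have := hrm d
      omega
    refine ⟨?_, fun i j d hd => coeff_of_rm (hlow d hd) i j, h48, max D1 D2, hhigh, ?_⟩
    · rw [← fam_succ m J]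
      have e1 : (1 : Matrix (Fin 2 × Fin (b + 1)) (Fin 2 × Fin (b + 1)) ℤ[X]) -
          (Matrix.fromBlocks F 0 0 Y).submatrix (eqv b) (eqv b) =
          (1 - Matrix.fromBlocks F 0 0 Y).submatrix (eqv b) (eqv b) := by
        ext1 i j
        simp [Matrix.one_apply, (eqv b).injective.eq_iff]
      rw [e1, Matrix.det_submatrix_equiv_self]
      exact hU
    · intro κ hκ hp hr
      have hr0 : ∀ d, 0 ≤ κ.p.coeff d := hκ.p.2
      obtain ⟨h8, h9⟩ := h5 κ hκ hp (fun d hd hd2 => by
        have := hr d hd (hd2.trans (le_max_left _ _))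
        push_cast at this
        linarith)
      have h10 : RelE κ F (Matrix.fromBlocks F 0 0 Y) := by
        refine h7 κ hκ _ F h1 h2 (fun d hd hd2 => hp d hd (hd2.trans (hD0 0))) h8 ?_
        intro d hd hd2
        have e1 := hr d hd (hd2.trans (le_max_right _ _))
        have e2 : (rm F d : ℤ) ≤ 48 * b := by exact_mod_cast h3 d
        push_cast at e1
        linarith [(Nat.cast_nonneg b : (0 : ℤ) ≤ b)]
      have h11 : ∀ d, 2 * (rm (fam m J) d : ℤ) ≤ κ.p.coeff d := by
        intro d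
        by_cases hd : d < T
        · rw [hlow d hd]
          simpa using hr0 d
        · by_cases hd2 : d ≤ max D1 D2
          · have e1 := hr d (by omega) hd2
            have e2 : (rm (fam m J) d : ℤ) ≤ 48 * (b + 1) := by exact_mod_cast h48 d
            push_cast at e1
            linarith [(Nat.cast_nonneg b : (0 : ℤ) ≤ b)]
          · rw [hhigh d (by omega)]
            simpa using hr0 d
      refine ⟨h11, ?_⟩
      have h12 : RelE κ (Matrix.fromBlocks F 0 0 Y) (fam m J) := by
        rw [← fam_succ m J]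
        exact relE_reindex hκ hU (eqv b)
      have h13 : ∃ w, Leg κ (Matrix.fromBlocks F 0 0 Y) w := by
        refine leg_of_rm hκ fun d => ?_
        have e1 := h11 d
        rw [← fam_succ m J, rm_submatrix] at e1
        exact e1
      exact (h9.trans hκ (leg_of_rm hκ h8) h10).trans hκ h13 h12

end Pool.Agent.WFS.Rot
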