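import Pool.Agent.WFG.FaceAdd

/-!
# Rotations: 2 x 2 blocks, the three letters, their joint costs

`M = [[1 + a, b], [c, 1 + e]]` in the basis `e1 - e0`, `e2 - e1`; `Em a b c e` is the K-part `1 - M` in the
basis `e1 - e0`, `e2 - e0`. The three letters (right multiplications) are
`x12 s = [[1, s], [0, 1]]`, `x21 s = [[1, 0], [s, 1]]`, `Lt s = [[1 + s, -s], [s, 1 - s]]`.
`c12`, `c21`, `cL` are the joint costs (in one degree) of a move with one of the letters: the column sum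
which is needed for a nonnegative lift of both ends.
-/

set_option autoImplicit false
set_option linter.unusedSectionVars false

noncomputable section

namespace Pool.Agent.WFS.Rot

open Polynomial Matrix Pool.Agent.WFS Pool.Agent.WFG

/-- the K-part of the matrix `[[1 + a, b], [c, 1 + e]]` -/
def Em (a b c e : ℤ[X]) : Matrix (Fin 2) (Fin 2) ℤ[X] := !![c - a, c - a + e - b; -c, -c - e]

def x12 (s : ℤ[X]) : Matrix (Fin 2) (Fin 2) ℤ[X] := !![1, s; 0, 1]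

def x21 (s : ℤ[X]) : Matrix (Fin 2) (Fin 2) ℤ[X] := !![1, 0; s, 1]

def Lt (s : ℤ[X]) : Matrix (Fin 2) (Fin 2) ℤ[X] := !![1 + s, -s; s, 1 - s]

/-- `max 0 x y z` -/
def m4 (x y z : ℤ) : ℤ := max 0 (max x (max y z))

/-- joint cost of `x12`: `b, e` are replaced by `b', e'` -/
def c12 (a b c e b' e' : ℤ) : ℤ :=
  m4 (-a) (-(a + b)) (-(a + b')) + m4 (a - c) (a - c + b - e) (a - c + b' - e') +
    m4 c (c + e) (c + e')

/-- joint cost of `x21`: `a, c` are replaced by `a', c'` -/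
def c21 (a b c e a' c' : ℤ) : ℤ :=
  m4 (-a) (-(a + b)) (a' - a) + m4 (a - c) (a - c + b - e) ((a - c) - (a' - c')) +
    m4 c (c + e) (c - c')

/-- joint cost of `Lt`: `a, b, c, e` are replaced by `a', b', c', e'` -/
def cL (a b c e a' c' : ℤ) : ℤ :=
  m4 (-a) (-a') (-(a + b)) + m4 (a - c) (a' - c') (a - c + b - e) + m4 c c' (c + e)

/-- a quadruple `(a, b, c, e)` -/
structure Q4 where
  a : ℤ[X]
  b : ℤ[X]
  c : ℤ[X]
  e : ℤ[X]

/-- the K-part -/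
def Q4.E (q : Q4) : Matrix (Fin 2) (Fin 2) ℤ[X] := Em q.a q.b q.c q.e

/-- the matrix in the basis `e1 - e0`, `e2 - e1` -/
def Q4.M (q : Q4) : Matrix (Fin 2) (Fin 2) ℤ[X] := !![1 + q.a, q.b; q.c, 1 + q.e]

/-- one move with joint costs at most `β` -/
inductive Mv (β : ℕ → ℤ) : Q4 → Q4 → Prop
  | m12 (a b c e s b' e' : ℤ[X]) (hb : b' = b + s * (1 + a)) (he : e' = e + s * c)
      (h : ∀ d, c12 (a.coeff d) (b.coeff d) (c.coeff d) (e.coeff d) (b'.coeff d) (e'.coeff d) ≤ β d) :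
      Mv β ⟨a, b, c, e⟩ ⟨a, b', c, e'⟩
  | m21 (a b c e s a' c' : ℤ[X]) (ha : a' = a + s * b) (hc : c' = c + s * (1 + e))
      (h : ∀ d, c21 (a.coeff d) (b.coeff d) (c.coeff d) (e.coeff d) (a'.coeff d) (c'.coeff d) ≤ β d) :
      Mv β ⟨a, b, c, e⟩ ⟨a', b, c', e⟩
  | mL (a b c e s a' b' c' e' : ℤ[X]) (ha : a' = a + s * (1 + a + b)) (hb : b' = b - s * (1 + a + b))
      (hc : c' = c + s * (1 + c + e)) (he : e' = e - s * (1 + c + e))
      (h : ∀ d, cL (a.coeff d) (b.coeff d) (c.coeff d) (e.coeff d) (a'.coeff d) (c'.coeff d) ≤ β d) :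
      Mv β ⟨a, b, c, e⟩ ⟨a', b', c', e'⟩

theorem c12_le {a b c e b' e' : ℤ} (ha : |a| ≤ 8) (hb : |b| ≤ 8) (hc : |c| ≤ 8) (he : |e| ≤ 8)
    (hb' : |b'| ≤ 8) (he' : |e'| ≤ 8) : c12 a b c e b' e' ≤ 100 := by
  rw [abs_le] at *
  simp only [c12, m4]
  omega

theorem c21_le {a b c e a' c' : ℤ} (ha : |a| ≤ 8) (hb : |b| ≤ 8) (hc : |c| ≤ 8) (he : |e| ≤ 8)
    (ha' : |a'| ≤ 8) (hc' : |c'| ≤ 8) : c21 a b c e a' c' ≤ 100 := by
  rw [abs_le] at *
  simp only [c21, m4]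
  omega

theorem cL_le {a b c e a' c' : ℤ} (ha : |a| ≤ 8) (hb : |b| ≤ 8) (hc : |c| ≤ 8) (he : |e| ≤ 8)
    (ha' : |a'| ≤ 8) (hc' : |c'| ≤ 8) : cL a b c e a' c' ≤ 100 := by
  rw [abs_le] at *
  simp only [cL, m4]
  omega

/-- the bound at the first stage: cost at most 1 in the degrees `1 .. D` -/
def β1 (D : ℕ) (d : ℕ) : ℤ := if 1 ≤ d ∧ d ≤ D then 1 else 0

/-- the bound at the second stage -/
def β2 (T : ℕ) (d : ℕ) : ℤ := if d < T then min ((d - 1 : ℕ) : ℤ) 2 else 100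

/-- all four polynomials vanish below the degree `T` -/
def Q4.Low (q : Q4) (T : ℕ) : Prop :=
  ∀ d, d < T → q.a.coeff d = 0 ∧ q.b.coeff d = 0 ∧ q.c.coeff d = 0 ∧ q.e.coeff d = 0

/-- all coefficients are at most 8 in absolute value -/
def Q4.Bd (q : Q4) : Prop :=
  ∀ d, |q.a.coeff d| ≤ 8 ∧ |q.b.coeff d| ≤ 8 ∧ |q.c.coeff d| ≤ 8 ∧ |q.e.coeff d| ≤ 8

end Pool.Agent.WFS.Rot
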