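import Pool.Agent.WFS.Rot.Def

/-!
# The rotations for `m ≥ 3` (helper94's path)

Stage S: `x12 X`, `x21 (X ^ (m - 1))`, `x12 (- X - X ^ m)`; quadruples `(0, X, 0, 0)`, `(X^m, X, X^(m-1), 0)`,
`G3`. Stage S': `x12 (X ^ m)` to `(X^m, - X^(m+1), X^(m-1), - X^m)`, `x21 (- psi)` to
`(X^m + X^(m+1) psi, - X^(m+1), X^m + sig, - X^m)`, `Lt (- X ^ m)` to
`(- X^(m+1) sig, phi, sig (1 - X^m), X^m sig)`, `x12 (- phi)` to `G7`. Below the degree `(J+2) m - 1` the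
joint costs at the stage S' are: step 1: `m-1 : 1, m : 2, m+1 : 1, 2m-1 : 1, 2m : 1`; step 2: `m-1 : 1, m : 2,
m+1 : 1, km : 1, km+1 : 1` (`k ≥ 2`); steps 3 and 4: at most 2 in degree `m`, at most 1 otherwise.
-/

set_option autoImplicit false
set_option linter.unusedSectionVars false

noncomputable section

namespace Pool.Agent.WFS.Rot

open Polynomial Matrix Pool.Agent.WFS Pool.Agent.WFG

/-- `sum_(1 ≤ k ≤ J + 3) X ^ (k m) (1 - X)` -/
def phi (m J : ℕ) : ℤ[X] := (∑ k ∈ Finset.range (J + 3), X ^ ((k + 1) * m)) * (1 - X)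

/-- `sum_(k ≤ J) X ^ (k m + m - 1) (1 - X)` -/
def psi (m J : ℕ) : ℤ[X] := (∑ k ∈ Finset.range (J + 1), X ^ (k * m + (m - 1))) * (1 - X)

def sig (m J : ℕ) : ℤ[X] := X ^ ((J + 2) * m - 1) * (1 - X)

def G3 (m : ℕ) : Q4 :=
  ⟨X ^ m, -X ^ m - X ^ (m + 1) - X ^ (2 * m), X ^ (m - 1), -X ^ m - X ^ (2 * m - 1)⟩

def G7 (m J : ℕ) : Q4 :=
  ⟨-X ^ (m + 1) * sig m J, X ^ (m + 1) * sig m J * phi m J, sig m J * (1 - X ^ m),
    sig m J * (X ^ (m + 1) + X ^ ((J + 4) * m) * (1 - X))⟩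

/-! ## Bounds from a lift -/

theorem m4_le {x y z w : ℤ} (h0 : 0 ≤ w) (hx : x ≤ w) (hy : y ≤ w) (hz : z ≤ w) : m4 x y z ≤ w :=
  max_le h0 (max_le hx (max_le hy hz))

/-- a geometric sum -/
def geo (k r : ℕ) : ℤ[X] := ∑ i ∈ Finset.range r, X ^ (k * i)

theorem geo_mul (k r : ℕ) : geo k r * (1 - X ^ k) = 1 - X ^ (k * r) := by
  unfold geo
  have h1 : ∀ i, (X ^ (k * i) : ℤ[X]) = (X ^ k) ^ i := fun i => by rw [pow_mul]
  simp only [h1]
  exact geom_sum_mul_neg (X ^ k : ℤ[X]) r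

theorem geo_coeff_nonneg (k r d : ℕ) : 0 ≤ (geo k r).coeff d := by
  unfold geo
  rw [finsetSum_coeff]
  refine Finset.sum_nonneg fun i _ => ?_
  rw [coeff_X_pow]
  split_ifs <;> norm_num

theorem geo_coeff_le (k r d : ℕ) (hk : 1 ≤ k) : (geo k r).coeff d ≤ 1 := by
  unfold geo
  rw [finsetSum_coeff]
  simp only [coeff_X_pow]
  rw [Finset.sum_ite, Finset.sum_const_zero, add_zero, Finset.sum_const, nsmul_eq_mul, mul_one]
  have h : (Finset.filter (fun i => d = k * i) (Finset.range r)).card ≤ 1 := by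
    rw [Finset.card_le_one]
    intro a ha b hb
    rw [Finset.mem_filter] at ha hb
    have h1 : k * a = k * b := ha.2.symm.trans hb.2
    exact Nat.eq_of_mul_eq_mul_left (by omega) h1
  exact_mod_cast h

/-- the coefficients of `X ^ n` -/
theorem cX (n d : ℕ) : ((X ^ n : ℤ[X]).coeff d = 1 ∧ d = n) ∨ ((X ^ n : ℤ[X]).coeff d = 0 ∧ d ≠ n) := by
  rw [coeff_X_pow]
  by_cases h : d = n
  · exact Or.inl ⟨if_pos h, h⟩
  · exact Or.inr ⟨if_neg h, h⟩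

/-- the coefficients of `X ^ n * geo k r` -/
theorem cG (n k r d : ℕ) (hk : 1 ≤ k) : 0 ≤ (X ^ n * geo k r).coeff d ∧
    (X ^ n * geo k r).coeff d ≤ 1 ∧ (d < n → (X ^ n * geo k r).coeff d = 0) := by
  rw [coeff_X_pow_mul']
  split_ifs with h
  · exact ⟨geo_coeff_nonneg _ _ _, geo_coeff_le _ _ _ hk, fun h' => by omega⟩
  · exact ⟨le_refl _, by norm_num, fun _ => rfl⟩

/-- absolute bounds for the coefficients -/
def Ab (c : ℤ) (p : ℤ[X]) : Prop := ∀ d, |p.coeff d| ≤ c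

theorem Ab.add {c c' : ℤ} {p p' : ℤ[X]} (h : Ab c p) (h' : Ab c' p') : Ab (c + c') (p + p') := fun d => by
  rw [coeff_add]
  exact (abs_add_le _ _).trans (add_le_add (h d) (h' d))

theorem Ab.sub {c c' : ℤ} {p p' : ℤ[X]} (h : Ab c p) (h' : Ab c' p') : Ab (c + c') (p - p') := fun d => by
  rw [coeff_sub]
  exact (abs_sub _ _).trans (add_le_add (h d) (h' d))

theorem Ab.neg {c : ℤ} {p : ℤ[X]} (h : Ab c p) : Ab c (-p) := fun d => by
  rw [coeff_neg, abs_neg]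
  exact h d

theorem Ab.shift {c : ℤ} {p : ℤ[X]} (h : Ab c p) (n : ℕ) : Ab c (X ^ n * p) := fun d => by
  rw [coeff_X_pow_mul']
  split_ifs
  · exact h _
  · rw [abs_zero]
    exact (abs_nonneg _).trans (h 0)

theorem ab_X (n : ℕ) : Ab 1 (X ^ n : ℤ[X]) := fun d => by
  rcases cX n d with h | h <;> rw [h.1] <;> norm_num

theorem ab_geo (k r : ℕ) (hk : 1 ≤ k) : Ab 1 (geo k r) := fun d => by
  rw [abs_le]
  exact ⟨by linarith [geo_coeff_nonneg k r d], geo_coeff_le k r d hk⟩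

theorem Ab.mono {c c' : ℤ} {p : ℤ[X]} (h : Ab c p) (hc : c ≤ c') : Ab c' p := fun d => (h d).trans hc

theorem c12_w {a b c e b' e' : ℤ} (w0 w1 w2 : ℤ) (p0 : 0 ≤ w0) (p1 : -a ≤ w0) (p2 : -(a + b) ≤ w0)
    (p3 : -(a + b') ≤ w0) (r0 : 0 ≤ w1) (r1 : a - c ≤ w1) (r2 : a - c + b - e ≤ w1)
    (r3 : a - c + b' - e' ≤ w1) (s0 : 0 ≤ w2) (s1 : c ≤ w2) (s2 : c + e ≤ w2) (s3 : c + e' ≤ w2) :
    c12 a b c e b' e' ≤ w0 + w1 + w2 :=
  add_le_add (add_le_add (m4_le p0 p1 p2 p3) (m4_le r0 r1 r2 r3)) (m4_le s0 s1 s2 s3)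

theorem c21_w {a b c e a' c' : ℤ} (w0 w1 w2 : ℤ) (p0 : 0 ≤ w0) (p1 : -a ≤ w0) (p2 : -(a + b) ≤ w0)
    (p3 : a' - a ≤ w0) (r0 : 0 ≤ w1) (r1 : a - c ≤ w1) (r2 : a - c + b - e ≤ w1)
    (r3 : (a - c) - (a' - c') ≤ w1) (s0 : 0 ≤ w2) (s1 : c ≤ w2) (s2 : c + e ≤ w2)
    (s3 : c - c' ≤ w2) : c21 a b c e a' c' ≤ w0 + w1 + w2 :=
  add_le_add (add_le_add (m4_le p0 p1 p2 p3) (m4_le r0 r1 r2 r3)) (m4_le s0 s1 s2 s3)

theorem cL_w {a b c e a' c' : ℤ} (w0 w1 w2 : ℤ) (p0 : 0 ≤ w0) (p1 : -a ≤ w0) (p2 : -a' ≤ w0)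
    (p3 : -(a + b) ≤ w0) (r0 : 0 ≤ w1) (r1 : a - c ≤ w1) (r2 : a' - c' ≤ w1)
    (r3 : a - c + b - e ≤ w1) (s0 : 0 ≤ w2) (s1 : c ≤ w2) (s2 : c' ≤ w2) (s3 : c + e ≤ w2) :
    cL a b c e a' c' ≤ w0 + w1 + w2 :=
  add_le_add (add_le_add (m4_le p0 p1 p2 p3) (m4_le r0 r1 r2 r3)) (m4_le s0 s1 s2 s3)

theorem cT {n d : ℕ} (h : d < n) (p : ℤ[X]) : (X ^ n * p).coeff d = 0 := by
  rw [coeff_X_pow_mul', if_neg (by omega)]

/-! ## The polynomials -/

theorem psi_eq (q J : ℕ) : psi (q + 1) J = X ^ q * geo (q + 1) (J + 1) * (1 - X) := by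
  unfold psi geo
  congr 1
  rw [Finset.mul_sum]
  refine Finset.sum_congr rfl fun k _ => ?_
  rw [← pow_add]
  congr 1
  rw [Nat.add_sub_cancel]
  ring

theorem phi_eq (q J : ℕ) : phi (q + 1) J = X ^ (q + 1) *
    (geo (q + 1) (J + 1) + X ^ ((q + 1) * (J + 1)) + X ^ (q + 1) * X ^ ((q + 1) * (J + 1))) *
      (1 - X) := by
  unfold phi geo
  congr 1
  have h : ∀ k : ℕ, (X ^ ((k + 1) * (q + 1)) : ℤ[X]) = X ^ (q + 1) * X ^ ((q + 1) * k) := fun k => by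
    rw [← pow_add]
    congr 1
    ring
  rw [Finset.sum_congr rfl fun k _ => h k, ← Finset.mul_sum, Finset.sum_range_succ,
    Finset.sum_range_succ]
  congr 2
  rw [← pow_add]
  congr 1
  ring

theorem T_eq (q J : ℕ) : (J + 2) * (q + 1) - 1 = q + (q + 1) * (J + 1) := by
  have h : (J + 2) * (q + 1) = (q + 1) * (J + 1) + (q + 1) := by ring
  omega

theorem sig_eq (q J : ℕ) : sig (q + 1) J = X ^ (q + (q + 1) * (J + 1)) * (1 - X) := by
  unfold sig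
  rw [T_eq]

theorem G3_eq (q : ℕ) : G3 (q + 1) = ⟨X ^ (q + 1), -X ^ (q + 1) - X ^ (q + 2) - X ^ (2 * q + 2), X ^ q,
    -X ^ (q + 1) - X ^ (2 * q + 1)⟩ := by
  unfold G3
  congr 2

theorem gen_S_aux (q : ℕ) (hq : 2 ≤ q) :
    Relation.ReflTransGen (Mv (β1 (2 * q + 2))) ⟨0, 0, 0, 0⟩ (G3 (q + 1)) := by
  have s1 : Mv (β1 (2 * q + 2)) ⟨0, 0, 0, 0⟩ ⟨0, X, 0, 0⟩ := by
    refine Mv.m12 0 0 0 0 X X 0 (by ring) (by ring) fun d => ?_
    have h := cX 1 d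
    rw [pow_one] at h
    simp only [coeff_zero]
    generalize (X : ℤ[X]).coeff d = t1 at h
    refine (c12_w 0 t1 0 ?_ ?_ ?_ ?_ ?_ ?_ ?_ ?_ ?_ ?_ ?_ ?_).trans ?_
    case refine_13 =>
      unfold β1
      split_ifs <;> omega
    all_goals omega
  have s2 : Mv (β1 (2 * q + 2)) ⟨0, X, 0, 0⟩ ⟨X ^ (q + 1), X, X ^ q, 0⟩ := by
    refine Mv.m21 0 X 0 0 (X ^ q) _ _ (by ring) (by ring) fun d => ?_
    have h := cX 1 d
    have h0 := cX q d
    have h1 := cX (q + 1) d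
    rw [pow_one] at h
    simp only [coeff_zero]
    generalize (X : ℤ[X]).coeff d = t1 at *
    generalize (X ^ q : ℤ[X]).coeff d = u0 at *
    generalize (X ^ (q + 1) : ℤ[X]).coeff d = u1 at *
    refine (c21_w u1 (t1 + u0) 0 ?_ ?_ ?_ ?_ ?_ ?_ ?_ ?_ ?_ ?_ ?_ ?_).trans ?_
    case refine_13 =>
      unfold β1
      split_ifs <;> omega
    all_goals omega
  have s3 : Mv (β1 (2 * q + 2)) ⟨X ^ (q + 1), X, X ^ q, 0⟩ (G3 (q + 1)) := by
    rw [G3_eq]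
    refine Mv.m12 _ _ _ _ (-X - X ^ (q + 1)) _ _ (by ring) (by ring) fun d => ?_
    have h := cX 1 d
    have h0 := cX q d
    have h1 := cX (q + 1) d
    have h2 := cX (q + 2) d
    have h3 := cX (2 * q + 1) d
    have h4 := cX (2 * q + 2) d
    rw [pow_one] at h
    simp only [coeff_zero, coeff_sub, coeff_neg]
    generalize (X : ℤ[X]).coeff d = t1 at *
    generalize (X ^ q : ℤ[X]).coeff d = u0 at *
    generalize (X ^ (q + 1) : ℤ[X]).coeff d = u1 at *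
    generalize (X ^ (q + 2) : ℤ[X]).coeff d = u2 at *
    generalize (X ^ (2 * q + 1) : ℤ[X]).coeff d = v1 at *
    generalize (X ^ (2 * q + 2) : ℤ[X]).coeff d = v2 at *
    refine (c12_w (u2 + v2) (u1 + t1 + v1) u0 ?_ ?_ ?_ ?_ ?_ ?_ ?_ ?_ ?_ ?_ ?_ ?_).trans ?_
    case refine_13 =>
      unfold β1
      split_ifs <;> omega
    all_goals omega
  exact ((Relation.ReflTransGen.single s1).tail s2).tail s3

theorem one_sub_ab : Ab 2 (1 - X : ℤ[X]) := by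
  have h := (ab_X 0).sub (ab_X 1)
  rw [pow_zero, pow_one] at h
  exact h.mono (by norm_num)

theorem Ab.mul_one_sub {c : ℤ} {p : ℤ[X]} (h : Ab c p) : Ab (2 * c) (p * (1 - X)) := by
  have h1 := h.sub (h.shift 1)
  have e : p - X ^ 1 * p = p * (1 - X) := by ring
  rw [e] at h1
  exact h1.mono (by linarith)

/-- all degrees, one lift, at the second stage -/
theorem b2_le {T d : ℕ} {w : ℤ} (h1 : d < T → w ≤ min ((d - 1 : ℕ) : ℤ) 2) (h2 : w ≤ 100) :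
    w ≤ β2 T d := by
  unfold β2
  split_ifs with h
  · exact h1 h
  · exact h2

theorem step_C (q J : ℕ) (hq : 2 ≤ q) : Mv (β2 (q + (q + 1) * (J + 1))) (G3 (q + 1))
    ⟨X ^ (q + 1), -X ^ (q + 2), X ^ q, -X ^ (q + 1)⟩ := by
  rw [G3_eq]
  refine Mv.m12 _ _ _ _ (X ^ (q + 1)) _ _ (by ring) (by ring) fun d => ?_
  have h0 := cX q d
  have h1 := cX (q + 1) d
  have h2 := cX (q + 2) d
  have h3 := cX (2 * q + 1) d
  have h4 := cX (2 * q + 2) d
  simp only [coeff_sub, coeff_neg]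
  generalize (X ^ q : ℤ[X]).coeff d = u0 at *
  generalize (X ^ (q + 1) : ℤ[X]).coeff d = u1 at *
  generalize (X ^ (q + 2) : ℤ[X]).coeff d = u2 at *
  generalize (X ^ (2 * q + 1) : ℤ[X]).coeff d = v1 at *
  generalize (X ^ (2 * q + 2) : ℤ[X]).coeff d = v2 at *
  refine (c12_w (u2 + v2) (2 * u1 + v1) u0 ?_ ?_ ?_ ?_ ?_ ?_ ?_ ?_ ?_ ?_ ?_ ?_).trans ?_
  case refine_13 =>
    refine b2_le (fun _ => ?_) ?_ <;> omega
  all_goals omega

/-- the state after `x21 (- psi)` -/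
def V1 (q J : ℕ) : Q4 :=
  ⟨X ^ (q + 1) + X ^ (2 * q + 2) * geo (q + 1) (J + 1) - X ^ (2 * q + 3) * geo (q + 1) (J + 1),
    -X ^ (q + 2), X ^ (q + 1) + X ^ (q + (q + 1) * (J + 1)) * (1 - X), -X ^ (q + 1)⟩

/-- the state after `Lt (- X ^ m)` -/
def V2 (q J : ℕ) : Q4 :=
  ⟨X ^ (q + (q + 1) * (J + 1)) * (-X ^ (q + 2) * (1 - X)),
    X ^ (q + 1) * geo (q + 1) (J + 1) - X ^ (q + 2) * geo (q + 1) (J + 1) +
      X ^ (q + (q + 1) * (J + 1)) * ((X + X ^ (q + 2)) * (1 - X)),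
    X ^ (q + (q + 1) * (J + 1)) * ((1 - X) * (1 - X ^ (q + 1))),
    X ^ (q + (q + 1) * (J + 1)) * (X ^ (q + 1) * (1 - X))⟩

theorem step_1 (q J : ℕ) (hq : 2 ≤ q) (hB : (V1 q J).Bd) : Mv (β2 (q + (q + 1) * (J + 1)))
    ⟨X ^ (q + 1), -X ^ (q + 2), X ^ q, -X ^ (q + 1)⟩ (V1 q J) := by
  have hg := geo_mul (q + 1) (J + 1)
  refine Mv.m21 _ _ _ _ (-psi (q + 1) J) _ _ ?_ ?_ fun d => ?_
  · rw [psi_eq]
    ring
  · rw [psi_eq]
    linear_combination (X ^ q * (1 - X)) * hg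
  · by_cases hd : d < q + (q + 1) * (J + 1)
    · have h0 := cX q d
      have h1 := cX (q + 1) d
      have h2 := cX (q + 2) d
      have h3 := cG (2 * q + 2) (q + 1) (J + 1) d (by omega)
      have h4 := cG (2 * q + 3) (q + 1) (J + 1) d (by omega)
      simp only [coeff_sub, coeff_neg, coeff_add, cT hd, add_zero]
      generalize (X ^ q : ℤ[X]).coeff d = u0 at *
      generalize (X ^ (q + 1) : ℤ[X]).coeff d = u1 at *
      generalize (X ^ (q + 2) : ℤ[X]).coeff d = u2 at *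
      generalize (X ^ (2 * q + 2) * geo (q + 1) (J + 1)).coeff d = ga at *
      generalize (X ^ (2 * q + 3) * geo (q + 1) (J + 1)).coeff d = gb at *
      refine (c21_w (u2 + ga) (2 * u1 + gb) u0 ?_ ?_ ?_ ?_ ?_ ?_ ?_ ?_ ?_ ?_ ?_ ?_).trans ?_
      case refine_13 =>
        refine b2_le (fun _ => ?_) ?_ <;> omega
      all_goals omega
    · unfold β2
      rw [if_neg hd]
      obtain ⟨b1, b2, b3, b4⟩ := hB d
      have k1 : ∀ n, |(X ^ n : ℤ[X]).coeff d| ≤ 8 := fun n => ((ab_X n).mono (by norm_num)) d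
      have k2 : ∀ n, |(-X ^ n : ℤ[X]).coeff d| ≤ 8 := fun n => ((ab_X n).neg.mono (by norm_num)) d
      exact c21_le (k1 _) (k2 _) (k1 _) (k2 _) b1 b3

theorem step_2 (q J : ℕ) (hq : 2 ≤ q) (hB : (V1 q J).Bd) (hB' : (V2 q J).Bd) :
    Mv (β2 (q + (q + 1) * (J + 1))) (V1 q J) (V2 q J) := by
  have hg := geo_mul (q + 1) (J + 1)
  refine Mv.mL _ _ _ _ (-X ^ (q + 1)) _ _ _ _ ?_ ?_ ?_ ?_ fun d => ?_
  · linear_combination (-X ^ (2 * q + 2) * (1 - X)) * hg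
  · linear_combination (X ^ (q + 1) * (1 - X) * (1 + X ^ (q + 1))) * hg
  · ring
  · ring
  · by_cases hd : d < q + (q + 1) * (J + 1)
    · have h1 := cX (q + 1) d
      have h2 := cX (q + 2) d
      have h3 := cG (2 * q + 2) (q + 1) (J + 1) d (by omega)
      have h4 := cG (2 * q + 3) (q + 1) (J + 1) d (by omega)
      simp only [coeff_sub, coeff_neg, coeff_add, cT hd, add_zero]
      generalize (X ^ (q + 1) : ℤ[X]).coeff d = u1 at *
      generalize (X ^ (q + 2) : ℤ[X]).coeff d = u2 at *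
      generalize (X ^ (2 * q + 2) * geo (q + 1) (J + 1)).coeff d = ga at *
      generalize (X ^ (2 * q + 3) * geo (q + 1) (J + 1)).coeff d = gb at *
      refine (cL_w (u2 + gb) (u1 + ga) u1 ?_ ?_ ?_ ?_ ?_ ?_ ?_ ?_ ?_ ?_ ?_ ?_).trans ?_
      case refine_13 =>
        refine b2_le (fun _ => ?_) ?_ <;> omega
      all_goals omega
    · unfold β2
      rw [if_neg hd]
      obtain ⟨b1, b2, b3, b4⟩ := hB d
      obtain ⟨c1, c2, c3, c4⟩ := hB' d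
      exact cL_le b1 b2 b3 b4 c1 c3

theorem G7_eq (q J : ℕ) : G7 (q + 1) J = ⟨X ^ (q + (q + 1) * (J + 1)) * (-X ^ (q + 2) * (1 - X)),
    X ^ (q + (q + 1) * (J + 1)) * (X ^ (q + 2) * (1 - X) * phi (q + 1) J),
    X ^ (q + (q + 1) * (J + 1)) * ((1 - X) * (1 - X ^ (q + 1))),
    X ^ (q + (q + 1) * (J + 1)) * ((1 - X) * (X ^ (q + 2) +
      X ^ (3 * q + 3) * X ^ ((q + 1) * (J + 1)) * (1 - X)))⟩ := by
  unfold G7
  rw [sig_eq]
  have h : (J + 4) * (q + 1) = 3 * q + 3 + (q + 1) * (J + 1) := by ring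
  rw [h, pow_add X (3 * q + 3)]
  congr 1 <;> ring

theorem step_3 (q J : ℕ) (hq : 2 ≤ q) (hB : (V2 q J).Bd) (hB' : (G7 (q + 1) J).Bd) :
    Mv (β2 (q + (q + 1) * (J + 1))) (V2 q J) (G7 (q + 1) J) := by
  have hg := geo_mul (q + 1) (J + 1)
  have hb : (V2 q J).b = phi (q + 1) J := by
    rw [phi_eq]
    unfold V2
    ring
  rw [G7_eq] at hB' ⊢
  refine Mv.m12 _ _ _ _ (-phi (q + 1) J) _ _ ?_ ?_ fun d => ?_
  · unfold V2 at hb
    simp only at hb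
    rw [hb]
    ring
  · rw [phi_eq]
    linear_combination (X ^ (q + (q + 1) * (J + 1)) * (1 - X) ^ 2 * X ^ (q + 1)) * hg
  · by_cases hd : d < q + (q + 1) * (J + 1)
    · have h3 := cG (q + 1) (q + 1) (J + 1) d (by omega)
      have h4 := cG (q + 2) (q + 1) (J + 1) d (by omega)
      simp only [coeff_sub, coeff_add, cT hd, add_zero]
      generalize (X ^ (q + 1) * geo (q + 1) (J + 1)).coeff d = ga at *
      generalize (X ^ (q + 2) * geo (q + 1) (J + 1)).coeff d = gb at *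
      refine (c12_w gb ga 0 ?_ ?_ ?_ ?_ ?_ ?_ ?_ ?_ ?_ ?_ ?_ ?_).trans ?_
      case refine_13 =>
        refine b2_le (fun _ => ?_) ?_ <;> omega
      all_goals omega
    · unfold β2
      rw [if_neg hd]
      obtain ⟨b1, b2, b3, b4⟩ := hB d
      obtain ⟨c1, c2, c3, c4⟩ := hB' d
      exact c12_le b1 b2 b3 b4 c2 c4

/-! ## Bounds for the states -/

theorem phi_eq' (q J : ℕ) : phi (q + 1) J = X ^ (q + 1) * (geo (q + 1) (J + 3) * (1 - X)) := by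
  unfold phi geo
  have h : ∀ k : ℕ, (X ^ ((k + 1) * (q + 1)) : ℤ[X]) = X ^ (q + 1) * X ^ ((q + 1) * k) := fun k => by
    rw [← pow_add]
    congr 1
    ring
  rw [Finset.sum_congr rfl fun k _ => h k, ← Finset.mul_sum]
  ring

theorem V1_bd (q J : ℕ) : (V1 q J).Bd := by
  intro d
  have hg := ab_geo (q + 1) (J + 1) (by omega)
  refine ⟨?_, ?_, ?_, ?_⟩
  · exact (((ab_X (q + 1)).add (hg.shift (2 * q + 2))).sub (hg.shift (2 * q + 3))).mono (by norm_num) d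
  · exact (ab_X (q + 2)).neg.mono (by norm_num) d
  · exact ((ab_X (q + 1)).add (one_sub_ab.shift _)).mono (by norm_num) d
  · exact (ab_X (q + 1)).neg.mono (by norm_num) d

theorem V2_bd (q J : ℕ) : (V2 q J).Bd := by
  intro d
  have hb : (V2 q J).b = phi (q + 1) J := by
    rw [phi_eq]
    unfold V2
    ring
  refine ⟨?_, ?_, ?_, ?_⟩
  · exact (((ab_X (q + 2)).neg.mul_one_sub.shift _).mono (by norm_num)) d
  · rw [hb, phi_eq']
    exact (((ab_geo (q + 1) (J + 3) (by omega)).mul_one_sub.shift _).mono (by norm_num)) d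
  · have h1 := (((ab_X 0).sub (ab_X (q + 1))).mul_one_sub.shift (q + (q + 1) * (J + 1)))
    have e : (X ^ 0 - X ^ (q + 1) : ℤ[X]) * (1 - X) = (1 - X) * (1 - X ^ (q + 1)) := by ring
    rw [e] at h1
    exact (h1.mono (by norm_num)) d
  · exact (((ab_X (q + 1)).mul_one_sub.shift _).mono (by norm_num)) d

theorem G7_bd' (q J : ℕ) : (G7 (q + 1) J).Bd := by
  rw [G7_eq]
  intro d
  refine ⟨?_, ?_, ?_, ?_⟩
  · exact (((ab_X (q + 2)).neg.mul_one_sub.shift _).mono (by norm_num)) d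
  · have h1 := (((ab_geo (q + 1) (J + 3) (by omega)).mul_one_sub.mul_one_sub.shift
      (q + 1)).shift (q + 2)).shift (q + (q + 1) * (J + 1))
    have e : (X ^ (q + 2) * (X ^ (q + 1) * (geo (q + 1) (J + 3) * (1 - X) * (1 - X))) : ℤ[X]) =
        X ^ (q + 2) * (1 - X) * phi (q + 1) J := by
      rw [phi_eq']
      ring
    rw [e] at h1
    exact (h1.mono (by norm_num)) d
  · have h1 := (((ab_X 0).sub (ab_X (q + 1))).mul_one_sub.shift (q + (q + 1) * (J + 1)))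
    have e : (X ^ 0 - X ^ (q + 1) : ℤ[X]) * (1 - X) = (1 - X) * (1 - X ^ (q + 1)) := by ring
    rw [e] at h1
    exact (h1.mono (by norm_num)) d
  · have h2 := (((ab_X (q + 2)).add ((ab_X ((q + 1) * (J + 1))).mul_one_sub.shift
      (3 * q + 3))).mul_one_sub.shift (q + (q + 1) * (J + 1)))
    have e : (X ^ (q + 2) + X ^ (3 * q + 3) * (X ^ ((q + 1) * (J + 1)) * (1 - X)) : ℤ[X]) * (1 - X) =
        (1 - X) * (X ^ (q + 2) + X ^ (3 * q + 3) * X ^ ((q + 1) * (J + 1)) * (1 - X)) := by ring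
    rw [e] at h2
    exact (h2.mono (by norm_num)) d

theorem gen_S {m : ℕ} (hm : 3 ≤ m) :
    Relation.ReflTransGen (Mv (β1 (2 * m))) ⟨0, 0, 0, 0⟩ (G3 m) := by
  obtain ⟨q, rfl⟩ : ∃ q, m = q + 1 := ⟨m - 1, by omega⟩
  exact gen_S_aux q (by omega)

theorem gen_S' {m : ℕ} (hm : 3 ≤ m) (J : ℕ) :
    Relation.ReflTransGen (Mv (β2 ((J + 2) * m - 1))) (G3 m) (G7 m J) := by
  obtain ⟨q, rfl⟩ : ∃ q, m = q + 1 := ⟨m - 1, by omega⟩
  have hq : 2 ≤ q := by omega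
  rw [T_eq]
  exact (((Relation.ReflTransGen.single (step_C q J hq)).tail
    (step_1 q J hq (V1_bd q J))).tail (step_2 q J hq (V1_bd q J) (V2_bd q J))).tail
    (step_3 q J hq (V2_bd q J) (G7_bd' q J))

theorem G3_bd {m : ℕ} (hm : 3 ≤ m) : (G3 m).Bd ∧ (G3 m).Low 2 := by
  obtain ⟨q, rfl⟩ : ∃ q, m = q + 1 := ⟨m - 1, by omega⟩
  rw [G3_eq]
  refine ⟨fun d => ⟨?_, ?_, ?_, ?_⟩, fun d hd => ?_⟩
  · exact (ab_X (q + 1)).mono (by norm_num) d
  · exact (((ab_X (q + 1)).neg.sub (ab_X (q + 2))).sub (ab_X (2 * q + 2))).mono (by norm_num) d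
  · exact (ab_X q).mono (by norm_num) d
  · exact ((ab_X (q + 1)).neg.sub (ab_X (2 * q + 1))).mono (by norm_num) d
  · have h0 := cX q d
    have h1 := cX (q + 1) d
    have h2 := cX (q + 2) d
    have h3 := cX (2 * q + 1) d
    have h4 := cX (2 * q + 2) d
    simp only [coeff_sub, coeff_neg]
    refine ⟨?_, ?_, ?_, ?_⟩ <;> omega

theorem G7_bd {m : ℕ} (hm : 3 ≤ m) (J : ℕ) : (G7 m J).Bd := by
  obtain ⟨q, rfl⟩ : ∃ q, m = q + 1 := ⟨m - 1, by omega⟩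
  exact G7_bd' q J

theorem G7_low {m : ℕ} (hm : 3 ≤ m) (J : ℕ) : (G7 m J).Low ((J + 2) * m - 1) := by
  obtain ⟨q, rfl⟩ : ∃ q, m = q + 1 := ⟨m - 1, by omega⟩
  rw [T_eq, G7_eq]
  intro d hd
  exact ⟨cT hd _, cT hd _, cT hd _, cT hd _⟩

theorem M12 {a b c e s b' e' : ℤ[X]} (hb : b' = b + s * (1 + a)) (he : e' = e + s * c) :
    (Q4.mk a b' c e').M = (Q4.mk a b c e).M * x12 s := by
  subst hb he
  unfold Q4.M x12
  refine Matrix.ext fun i j => ?_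
  fin_cases i <;> fin_cases j <;> simp [Matrix.mul_apply, Fin.sum_univ_two] <;> ring

theorem M21 {a b c e s a' c' : ℤ[X]} (ha : a' = a + s * b) (hc : c' = c + s * (1 + e)) :
    (Q4.mk a' b c' e).M = (Q4.mk a b c e).M * x21 s := by
  subst ha hc
  unfold Q4.M x21
  refine Matrix.ext fun i j => ?_
  fin_cases i <;> fin_cases j <;> simp [Matrix.mul_apply, Fin.sum_univ_two] <;> ring

theorem ML {a b c e s a' b' c' e' : ℤ[X]} (ha : a' = a + s * (1 + a + b))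
    (hb : b' = b - s * (1 + a + b)) (hc : c' = c + s * (1 + c + e))
    (he : e' = e - s * (1 + c + e)) : (Q4.mk a' b' c' e').M = (Q4.mk a b c e).M * Lt s := by
  subst ha hb hc he
  unfold Q4.M Lt
  refine Matrix.ext fun i j => ?_
  fin_cases i <;> fin_cases j <;> simp [Matrix.mul_apply, Fin.sum_univ_two] <;> ring

theorem M0 : (Q4.mk 0 X 0 0).M = x12 X := by
  unfold Q4.M x12
  rw [add_zero]

theorem V2_b (q J : ℕ) : (V2 q J).b = phi (q + 1) J := by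
  rw [phi_eq]
  unfold V2
  ring

theorem G7_M {m : ℕ} (hm : 3 ≤ m) (J : ℕ) :
    (G7 m J).M = x12 X * x21 (X ^ (m - 1)) * x12 (-X - X ^ m) * x12 (X ^ m) * x21 (-psi m J) *
      Lt (-X ^ m) * x12 (-phi m J) := by
  obtain ⟨q, rfl⟩ : ∃ q, m = q + 1 := ⟨m - 1, by omega⟩
  have hg := geo_mul (q + 1) (J + 1)
  have h1 : (Q4.mk (X ^ (q + 1)) X (X ^ q) 0).M = x12 X * x21 (X ^ (q + 1 - 1)) := by
    rw [← M0, Nat.add_sub_cancel]
    exact M21 (by ring) (by ring)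
  have h2 : (G3 (q + 1)).M = x12 X * x21 (X ^ (q + 1 - 1)) * x12 (-X - X ^ (q + 1)) := by
    rw [← h1, G3_eq]
    exact M12 (by ring) (by ring)
  have h3 : (Q4.mk (X ^ (q + 1)) (-X ^ (q + 2)) (X ^ q) (-X ^ (q + 1))).M =
      x12 X * x21 (X ^ (q + 1 - 1)) * x12 (-X - X ^ (q + 1)) * x12 (X ^ (q + 1)) := by
    rw [← h2, G3_eq]
    exact M12 (by ring) (by ring)
  have h4 : (V1 q J).M = x12 X * x21 (X ^ (q + 1 - 1)) * x12 (-X - X ^ (q + 1)) *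
      x12 (X ^ (q + 1)) * x21 (-psi (q + 1) J) := by
    rw [← h3]
    refine M21 ?_ ?_
    · rw [psi_eq]
      ring
    · rw [psi_eq]
      linear_combination (X ^ q * (1 - X)) * hg
  have h5 : (V2 q J).M = x12 X * x21 (X ^ (q + 1 - 1)) * x12 (-X - X ^ (q + 1)) *
      x12 (X ^ (q + 1)) * x21 (-psi (q + 1) J) * Lt (-X ^ (q + 1)) := by
    rw [← h4]
    refine ML ?_ ?_ ?_ ?_
    · linear_combination (-X ^ (2 * q + 2) * (1 - X)) * hg
    · linear_combination (X ^ (q + 1) * (1 - X) * (1 + X ^ (q + 1))) * hg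
    · ring
    · ring
  rw [← h5, G7_eq]
  refine M12 ?_ ?_
  · have hb := V2_b q J
    unfold V2 at hb
    simp only at hb
    rw [hb]
    ring
  · rw [phi_eq]
    linear_combination (X ^ (q + (q + 1) * (J + 1)) * (1 - X) ^ 2 * X ^ (q + 1)) * hg

end Pool.Agent.WFS.Rot
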