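import Pool.Agent.WFS.Rot.Def

/-!
# The moves as relations (`relE_add`)

A move with joint costs `cost d` is lifted to the base column `w = (W_n, W_0, W_1)`, `W_i` = the row maxima of
the negative parts; the column sum `P` has the coefficients `cost d`.
-/

set_option autoImplicit false
set_option linter.unusedSectionVars false

noncomputable section

namespace Pool.Agent.WFS.Rot

open Polynomial Matrix Pool.Agent.WFS Pool.Agent.WFG

variable {I : Type} [Fintype I] [DecidableEq I]

/-- the polynomial with the coefficients `m4` -/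
theorem exists_m4 (p q r : ℤ[X]) : ∃ W : ℤ[X], ∀ d,
    W.coeff d = m4 (p.coeff d) (q.coeff d) (r.coeff d) := by
  refine ⟨polyOf (p.natDegree + q.natDegree + r.natDegree + 1)
    fun d => m4 (p.coeff d) (q.coeff d) (r.coeff d), fun d => ?_⟩
  rw [polyOf_coeff]
  intro e he
  rw [Polynomial.coeff_eq_zero_of_natDegree_lt (by omega),
    Polynomial.coeff_eq_zero_of_natDegree_lt (by omega),
    Polynomial.coeff_eq_zero_of_natDegree_lt (by omega)]
  simp [m4]

/-- the base column -/
def bw (x y z : ℤ[X]) : Option (Fin 2) → ℤ[X] := fun a => a.elim x ![y, z]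

theorem sum_bw (x y z : ℤ[X]) : ∑ a, bw x y z a = x + y + z := by
  rw [Fintype.sum_option, Fin.sum_univ_two]
  show x + (y + z) = _
  ring

theorem pos_bw {E : Matrix (Fin 2) (Fin 2) ℤ[X]} {x y z : ℤ[X]}
    (h0 : (x + y + z).coeff 0 = 0)
    (hx : ∀ d, 0 ≤ x.coeff d) (hy : ∀ d, 0 ≤ y.coeff d) (hz : ∀ d, 0 ≤ z.coeff d)
    (hx0 : ∀ d, 0 ≤ x.coeff d - ((E 0 0).coeff d + (E 1 0).coeff d))
    (hx1 : ∀ d, 0 ≤ x.coeff d - ((E 0 1).coeff d + (E 1 1).coeff d))
    (hy0 : ∀ d, 0 ≤ y.coeff d + (E 0 0).coeff d) (hy1 : ∀ d, 0 ≤ y.coeff d + (E 0 1).coeff d)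
    (hz0 : ∀ d, 0 ≤ z.coeff d + (E 1 0).coeff d) (hz1 : ∀ d, 0 ≤ z.coeff d + (E 1 1).coeff d) :
    Pos (mat E (bw x y z)) := by
  have key : ∀ (j : Option (Fin 2)), (∀ i d, 0 ≤ (mat E (bw x y z) i j).coeff d) →
      ∀ i, Pol (mat E (bw x y z) i j) := by
    intro j hj i
    refine ⟨?_, hj i⟩
    have h1 : ∑ i, (mat E (bw x y z) i j).coeff 0 = 0 := by
      rw [← Polynomial.finsetSum_coeff, mat_sum, sum_bw, h0]
    exact (Finset.sum_eq_zero_iff_of_nonneg fun i _ => hj i 0).1 h1 i (Finset.mem_univ i)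
  intro i j
  refine key j ?_ i
  rcases j with _ | j
  · rintro (_ | i) d
    · show 0 ≤ (x + 0).coeff d
      rw [add_zero]
      exact hx d
    · fin_cases i
      · show 0 ≤ (y + 0).coeff d
        rw [add_zero]
        exact hy d
      · show 0 ≤ (z + 0).coeff d
        rw [add_zero]
        exact hz d
  · fin_cases j
    · rintro (_ | i) d
      · show 0 ≤ (x + - ∑ i, E i 0).coeff d
        rw [Fin.sum_univ_two, coeff_add, coeff_neg, coeff_add]
        linarith [hx0 d]
      · fin_cases i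
        · show 0 ≤ (y + E 0 0).coeff d
          rw [coeff_add]
          exact hy0 d
        · show 0 ≤ (z + E 1 0).coeff d
          rw [coeff_add]
          exact hz0 d
    · rintro (_ | i) d
      · show 0 ≤ (x + - ∑ i, E i 1).coeff d
        rw [Fin.sum_univ_two, coeff_add, coeff_neg, coeff_add]
        linarith [hx1 d]
      · fin_cases i
        · show 0 ≤ (y + E 0 1).coeff d
          rw [coeff_add]
          exact hy1 d
        · show 0 ≤ (z + E 1 1).coeff d
          rw [coeff_add]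
          exact hz1 d

theorem det_Em (a b c e : ℤ[X]) : (1 - Em a b c e).det = (1 + a) * (1 + e) - b * c := by
  rw [Matrix.det_fin_two]
  simp only [Em, Matrix.sub_apply, Matrix.one_apply, Matrix.of_apply, Matrix.cons_val',
    Matrix.cons_val_zero, Matrix.cons_val_one]
  simp
  ring

/-- a step which can be added to a small matrix: the data of `relE_add` -/
def Stp (P : ℤ[X]) (Y Y' : Matrix (Fin 2) (Fin 2) ℤ[X]) : Prop :=
  ∃ (w w' : Option (Fin 2) → ℤ[X]) (x : Option (Fin 2) → ℕ) (u : Option (Fin 2) → ℤ[X]),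
    ∑ a, w a = P ∧ ∑ a, w' a = P ∧ Pos (mat Y w) ∧ Pos (mat Y' w') ∧ ∑ i, u i = 0 ∧
    ∑ i, (x i : ℤ[X]) * u i = 0 ∧
    ∀ i j, mat Y w i j - mat Y' w' i j = (u i - ∑ l, mat Y' w' i l * u l) * (x j : ℤ[X])

theorem stp12 (a b c e s : ℤ[X])
    (h0 : c12 (a.coeff 0) (b.coeff 0) (c.coeff 0) (e.coeff 0) ((b + s * (1 + a)).coeff 0)
      ((e + s * c).coeff 0) ≤ 0) :
    ∃ P : ℤ[X], (∀ d, P.coeff d = c12 (a.coeff d) (b.coeff d) (c.coeff d) (e.coeff d)
      ((b + s * (1 + a)).coeff d) ((e + s * c).coeff d)) ∧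
      Stp P (Em a b c e) (Em a (b + s * (1 + a)) c (e + s * c)) := by
  set b' := b + s * (1 + a) with hb
  set e' := e + s * c with he
  obtain ⟨Wn, hWn⟩ := exists_m4 (-a) (-(a + b)) (-(a + b'))
  obtain ⟨W0, hW0⟩ := exists_m4 (a - c) (a - c + b - e) (a - c + b' - e')
  obtain ⟨W1, hW1⟩ := exists_m4 c (c + e) (c + e')
  simp only [coeff_neg, coeff_add, coeff_sub] at hWn hW0 hW1
  have hP : ∀ d, (Wn + W0 + W1).coeff d = c12 (a.coeff d) (b.coeff d) (c.coeff d) (e.coeff d)
      (b'.coeff d) (e'.coeff d) := by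
    intro d
    rw [coeff_add, coeff_add, hWn, hW0, hW1]
    rfl
  have hP0 : (Wn + W0 + W1).coeff 0 = 0 := by
    refine le_antisymm ((hP 0).le.trans h0) ?_
    rw [coeff_add, coeff_add, hWn, hW0, hW1]
    simp only [m4]
    positivity
  refine ⟨Wn + W0 + W1, hP, bw Wn W0 W1, bw Wn W0 W1, fun a => a.elim 0 ![0, 1], bw (-s) s 0,
    sum_bw _ _ _, sum_bw _ _ _, ?_, ?_, ?_, ?_, ?_⟩
  · apply pos_bw hP0
    all_goals
      intro d
      simp only [Em, Matrix.of_apply, Matrix.cons_val', Matrix.cons_val_zero, Matrix.cons_val_one,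
        Matrix.cons_val_fin_one, coeff_neg, coeff_add, coeff_sub, hWn, hW0, hW1, m4]
      omega
  · apply pos_bw hP0
    all_goals
      intro d
      simp only [Em, Matrix.of_apply, Matrix.cons_val', Matrix.cons_val_zero, Matrix.cons_val_one,
        Matrix.cons_val_fin_one, coeff_neg, coeff_add, coeff_sub, hWn, hW0, hW1, m4]
      omega
  · rw [sum_bw]
    ring
  · rw [Fintype.sum_option, Fin.sum_univ_two]
    simp [bw]
  · intro i j
    have hs : ∀ i, ∑ l, mat (Em a b' c e') (bw Wn W0 W1) i l * bw (-s) s 0 l =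
        s * (mat (Em a b' c e') (bw Wn W0 W1) i (some 0) -
          mat (Em a b' c e') (bw Wn W0 W1) i none) := by
      intro i
      rw [Fintype.sum_option, Fin.sum_univ_two]
      show _ * (-s) + (_ * s + _ * 0) = _
      ring
    rw [hs]
    rcases i with _ | i
    · rcases j with _ | j
      · simp [mat, bw, Em]
      · fin_cases j
        · simp [mat, bw, Em, Fin.sum_univ_two]
        · simp [mat, bw, Em, Fin.sum_univ_two, hb, he]
          ring
    · fin_cases i
      · rcases j with _ | j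
        · simp [mat, bw, Em]
        · fin_cases j
          · simp [mat, bw, Em]
          · simp [mat, bw, Em, hb, he]
            ring
      · rcases j with _ | j
        · simp [mat, bw, Em]
        · fin_cases j
          · simp [mat, bw, Em]
          · simp [mat, bw, Em, he]

theorem stp21 (a b c e s : ℤ[X])
    (h0 : c21 (a.coeff 0) (b.coeff 0) (c.coeff 0) (e.coeff 0) ((a + s * b).coeff 0)
      ((c + s * (1 + e)).coeff 0) ≤ 0) :
    ∃ P : ℤ[X], (∀ d, P.coeff d = c21 (a.coeff d) (b.coeff d) (c.coeff d) (e.coeff d)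
      ((a + s * b).coeff d) ((c + s * (1 + e)).coeff d)) ∧
      Stp P (Em a b c e) (Em (a + s * b) b (c + s * (1 + e)) e) := by
  set a' := a + s * b with ha
  set c' := c + s * (1 + e) with hc
  obtain ⟨Wn, hWn⟩ := exists_m4 (-a) (-(a + b)) (a' - a)
  obtain ⟨W0, hW0⟩ := exists_m4 (a - c) (a - c + b - e) ((a - c) - (a' - c'))
  obtain ⟨W1, hW1⟩ := exists_m4 c (c + e) (c - c')
  simp only [coeff_neg, coeff_add, coeff_sub] at hWn hW0 hW1
  have hP : ∀ d, (Wn + W0 + W1).coeff d = c21 (a.coeff d) (b.coeff d) (c.coeff d) (e.coeff d)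
      (a'.coeff d) (c'.coeff d) := by
    intro d
    rw [coeff_add, coeff_add, hWn, hW0, hW1]
    rfl
  have hP0 : (Wn + W0 + W1).coeff 0 = 0 := by
    refine le_antisymm ((hP 0).le.trans h0) ?_
    rw [coeff_add, coeff_add, hWn, hW0, hW1]
    simp only [m4]
    positivity
  have hPe : (Wn + (a - a')) + (W0 + ((c - a) - (c' - a'))) + (W1 + (c' - c)) = Wn + W0 + W1 := by
    ring
  refine ⟨Wn + W0 + W1, hP, bw Wn W0 W1,
    bw (Wn + (a - a')) (W0 + ((c - a) - (c' - a'))) (W1 + (c' - c)), fun a => a.elim 1 ![0, 0],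
    bw 0 s (-s), sum_bw _ _ _, (sum_bw _ _ _).trans hPe, ?_, ?_, ?_, ?_, ?_⟩
  · apply pos_bw hP0
    all_goals
      intro d
      simp only [Em, Matrix.of_apply, Matrix.cons_val', Matrix.cons_val_zero, Matrix.cons_val_one,
        Matrix.cons_val_fin_one, coeff_neg, coeff_add, coeff_sub, hWn, hW0, hW1, m4]
      omega
  · apply pos_bw (by rw [hPe]; exact hP0)
    all_goals
      intro d
      simp only [Em, Matrix.of_apply, Matrix.cons_val', Matrix.cons_val_zero, Matrix.cons_val_one,
        Matrix.cons_val_fin_one, coeff_neg, coeff_add, coeff_sub, hWn, hW0, hW1, m4]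
      omega
  · rw [sum_bw]
    ring
  · rw [Fintype.sum_option, Fin.sum_univ_two]
    simp [bw]
  · intro i j
    generalize hw' : bw (Wn + (a - a')) (W0 + ((c - a) - (c' - a'))) (W1 + (c' - c)) = w'
    have hs : ∀ i, ∑ l, mat (Em a' b c' e) w' i l * bw 0 s (-s) l =
        s * (mat (Em a' b c' e) w' i (some 0) -
          mat (Em a' b c' e) w' i (some 1)) := by
      intro i
      rw [Fintype.sum_option, Fin.sum_univ_two]
      show _ * 0 + (_ * s + _ * (-s)) = _
      ring
    rw [hs, ← hw']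
    rcases i with _ | i
    · rcases j with _ | j
      · simp [mat, bw, Em, Fin.sum_univ_two, ha, hc]
        ring
      · fin_cases j
        · simp [mat, bw, Em, Fin.sum_univ_two]
          ring
        · simp [mat, bw, Em, Fin.sum_univ_two]
          ring
    · fin_cases i
      · rcases j with _ | j
        · simp [mat, bw, Em, ha, hc]
          ring
        · fin_cases j
          · simp [mat, bw, Em]
            ring
          · simp [mat, bw, Em]
            ring
      · rcases j with _ | j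
        · simp [mat, bw, Em, hc]
          ring
        · fin_cases j
          · simp [mat, bw, Em]
            ring
          · simp [mat, bw, Em]
            ring

theorem stpL (a b c e s : ℤ[X])
    (h0 : cL (a.coeff 0) (b.coeff 0) (c.coeff 0) (e.coeff 0) ((a + s * (1 + a + b)).coeff 0)
      ((c + s * (1 + c + e)).coeff 0) ≤ 0) :
    ∃ P : ℤ[X], (∀ d, P.coeff d = cL (a.coeff d) (b.coeff d) (c.coeff d) (e.coeff d)
      ((a + s * (1 + a + b)).coeff d) ((c + s * (1 + c + e)).coeff d)) ∧
      Stp P (Em a b c e) (Em (a + s * (1 + a + b)) (b - s * (1 + a + b)) (c + s * (1 + c + e))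
        (e - s * (1 + c + e))) := by
  set a' := a + s * (1 + a + b) with ha
  set c' := c + s * (1 + c + e) with hc
  have hb : b - s * (1 + a + b) = a + b - a' := by
    rw [ha]
    ring
  have he : e - s * (1 + c + e) = c + e - c' := by
    rw [hc]
    ring
  rw [hb, he]
  obtain ⟨Wn, hWn⟩ := exists_m4 (-a) (-a') (-(a + b))
  obtain ⟨W0, hW0⟩ := exists_m4 (a - c) (a' - c') (a - c + b - e)
  obtain ⟨W1, hW1⟩ := exists_m4 c c' (c + e)
  simp only [coeff_neg, coeff_add, coeff_sub] at hWn hW0 hW1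
  have hP : ∀ d, (Wn + W0 + W1).coeff d = cL (a.coeff d) (b.coeff d) (c.coeff d) (e.coeff d)
      (a'.coeff d) (c'.coeff d) := by
    intro d
    rw [coeff_add, coeff_add, hWn, hW0, hW1]
    rfl
  have hP0 : (Wn + W0 + W1).coeff 0 = 0 := by
    refine le_antisymm ((hP 0).le.trans h0) ?_
    rw [coeff_add, coeff_add, hWn, hW0, hW1]
    simp only [m4]
    positivity
  refine ⟨Wn + W0 + W1, hP, bw Wn W0 W1, bw Wn W0 W1, fun a => a.elim 0 ![1, 0], bw (-s) 0 s,
    sum_bw _ _ _, sum_bw _ _ _, ?_, ?_, ?_, ?_, ?_⟩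
  · apply pos_bw hP0
    all_goals
      intro d
      simp only [Em, Matrix.of_apply, Matrix.cons_val', Matrix.cons_val_zero, Matrix.cons_val_one,
        Matrix.cons_val_fin_one, coeff_neg, coeff_add, coeff_sub, hWn, hW0, hW1, m4]
      omega
  · apply pos_bw hP0
    all_goals
      intro d
      simp only [Em, Matrix.of_apply, Matrix.cons_val', Matrix.cons_val_zero, Matrix.cons_val_one,
        Matrix.cons_val_fin_one, coeff_neg, coeff_add, coeff_sub, hWn, hW0, hW1, m4]
      omega
  · rw [sum_bw]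
    ring
  · rw [Fintype.sum_option, Fin.sum_univ_two]
    simp [bw]
  · intro i j
    have hs : ∀ i, ∑ l, mat (Em a' (a + b - a') c' (c + e - c')) (bw Wn W0 W1) i l * bw (-s) 0 s l =
        s * (mat (Em a' (a + b - a') c' (c + e - c')) (bw Wn W0 W1) i (some 1) -
          mat (Em a' (a + b - a') c' (c + e - c')) (bw Wn W0 W1) i none) := by
      intro i
      rw [Fintype.sum_option, Fin.sum_univ_two]
      show _ * (-s) + (_ * 0 + _ * s) = _
      ring
    rw [hs]
    rcases i with _ | i
    · rcases j with _ | j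
      · simp [mat, bw, Em]
      · fin_cases j
        · simp [mat, bw, Em, Fin.sum_univ_two, ha, hc]
          ring
        · simp [mat, bw, Em, Fin.sum_univ_two]
          ring
    · fin_cases i
      · rcases j with _ | j
        · simp [mat, bw, Em]
        · fin_cases j
          · simp [mat, bw, Em, ha, hc]
            ring
          · simp [mat, bw, Em]
            ring
      · rcases j with _ | j
        · simp [mat, bw, Em]
        · fin_cases j
          · simp [mat, bw, Em, hc]
            ring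
          · simp [mat, bw, Em]
            ring

/-- the cost of one matrix -/
def c0 (a b c e : ℤ) : ℤ := c12 a b c e b e

private theorem m4_a (x y z : ℤ) : m4 x z z ≤ m4 x y z := by
  simp only [m4]
  omega

private theorem m4_b (x y t : ℤ) : m4 (x - t) (y - t) (y - t) + t ≤ m4 x y t := by
  simp only [m4]
  omega

private theorem m4_c (x y z : ℤ) : m4 y z z ≤ m4 x y z := by
  simp only [m4]
  omega

theorem Mv.single {β : ℕ → ℤ} {q q' : Q4} (h : Mv β q q') (d : ℕ) :
    c0 (q'.a.coeff d) (q'.b.coeff d) (q'.c.coeff d) (q'.e.coeff d) ≤ β d := by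
  cases h with
  | m12 a b c e s b' e' hb he h =>
    refine le_trans ?_ (h d)
    exact add_le_add (add_le_add (m4_a _ _ _) (m4_a _ _ _)) (m4_a _ _ _)
  | m21 a b c e s a' c' ha hc h =>
    refine le_trans ?_ (h d)
    show c0 (a'.coeff d) (b.coeff d) (c'.coeff d) (e.coeff d) ≤ _
    have h1 := m4_b (-a.coeff d) (-(a.coeff d + b.coeff d)) (a'.coeff d - a.coeff d)
    have h2 := m4_b (a.coeff d - c.coeff d) (a.coeff d - c.coeff d + b.coeff d - e.coeff d)
      ((a.coeff d - c.coeff d) - (a'.coeff d - c'.coeff d))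
    have h3 := m4_b (c.coeff d) (c.coeff d + e.coeff d) (c.coeff d - c'.coeff d)
    have e1 : m4 (-a'.coeff d) (-(a'.coeff d + b.coeff d)) (-(a'.coeff d + b.coeff d)) =
        m4 (-a.coeff d - (a'.coeff d - a.coeff d)) (-(a.coeff d + b.coeff d) -
          (a'.coeff d - a.coeff d)) (-(a.coeff d + b.coeff d) - (a'.coeff d - a.coeff d)) := by
      congr 1 <;> ring
    have e2 : m4 (a'.coeff d - c'.coeff d) (a'.coeff d - c'.coeff d + b.coeff d - e.coeff d)
        (a'.coeff d - c'.coeff d + b.coeff d - e.coeff d) =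
        m4 (a.coeff d - c.coeff d - ((a.coeff d - c.coeff d) - (a'.coeff d - c'.coeff d)))
          (a.coeff d - c.coeff d + b.coeff d - e.coeff d -
            ((a.coeff d - c.coeff d) - (a'.coeff d - c'.coeff d)))
          (a.coeff d - c.coeff d + b.coeff d - e.coeff d -
            ((a.coeff d - c.coeff d) - (a'.coeff d - c'.coeff d))) := by
      congr 1 <;> ring
    have e3 : m4 (c'.coeff d) (c'.coeff d + e.coeff d) (c'.coeff d + e.coeff d) =
        m4 (c.coeff d - (c.coeff d - c'.coeff d)) (c.coeff d + e.coeff d -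
          (c.coeff d - c'.coeff d)) (c.coeff d + e.coeff d - (c.coeff d - c'.coeff d)) := by
      congr 1 <;> ring
    rw [c0, c12, c21, e1, e2, e3]
    linarith
  | mL a b c e s a' b' c' e' ha hb hc he h =>
    refine le_trans ?_ (h d)
    have h1 : a'.coeff d + b'.coeff d = a.coeff d + b.coeff d := by
      rw [← coeff_add, ← coeff_add, ha, hb]
      congr 1
      ring
    have h2 : c'.coeff d + e'.coeff d = c.coeff d + e.coeff d := by
      rw [← coeff_add, ← coeff_add, hc, he]
      congr 1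
      ring
    have h3 : a'.coeff d - c'.coeff d + b'.coeff d - e'.coeff d =
        a.coeff d - c.coeff d + b.coeff d - e.coeff d := by linarith
    show c0 (a'.coeff d) (b'.coeff d) (c'.coeff d) (e'.coeff d) ≤ _
    rw [c0, c12, cL, h1, h2, h3]
    exact add_le_add (add_le_add (m4_c _ _ _) (m4_c _ _ _)) (m4_c _ _ _)

theorem Mv.det {β : ℕ → ℤ} {q q' : Q4} (h : Mv β q q') : (1 - q'.E).det = (1 - q.E).det := by
  cases h with
  | m12 a b c e s b' e' hb he h =>
    show (1 - Em a b' c e').det = (1 - Em a b c e).det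
    rw [det_Em, det_Em, hb, he]
    ring
  | m21 a b c e s a' c' ha hc h =>
    show (1 - Em a' b c' e).det = (1 - Em a b c e).det
    rw [det_Em, det_Em, ha, hc]
    ring
  | mL a b c e s a' b' c' e' ha hb hc he h =>
    show (1 - Em a' b' c' e').det = (1 - Em a b c e).det
    rw [det_Em, det_Em, ha, hb, hc, he]
    ring

theorem Mv.stp {β : ℕ → ℤ} (hβ : β 0 ≤ 0) {q q' : Q4} (h : Mv β q q') :
    ∃ P : ℤ[X], (∀ d, P.coeff d ≤ β d) ∧ P.coeff 0 = 0 ∧ Stp P q.E q'.E := by
  have key : ∀ P : ℤ[X], (∀ d, P.coeff d ≤ β d) → Stp P q.E q'.E → P.coeff 0 = 0 := by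
    intro P hP ⟨w, w', x, u, h1, h2, h3, h4, h5, h6, h7⟩
    refine le_antisymm ((hP 0).trans hβ) ?_
    rw [← h1, Polynomial.finsetSum_coeff]
    refine Finset.sum_nonneg fun a _ => ?_
    have := (h3 a none).2 0
    rcases a with _ | a
    · have e : mat q.E w none none = w none := add_zero _
      rwa [e] at this
    · have e : mat q.E w (some a) none = w (some a) := add_zero _
      rwa [e] at this
  have : ∃ P : ℤ[X], (∀ d, P.coeff d ≤ β d) ∧ Stp P q.E q'.E := by
    cases h with
    | m12 a b c e s b' e' hb he h =>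
      subst hb he
      obtain ⟨P, hP, hS⟩ := stp12 a b c e s ((h 0).trans hβ)
      exact ⟨P, fun d => (hP d).le.trans (h d), hS⟩
    | m21 a b c e s a' c' ha hc h =>
      subst ha hc
      obtain ⟨P, hP, hS⟩ := stp21 a b c e s ((h 0).trans hβ)
      exact ⟨P, fun d => (hP d).le.trans (h d), hS⟩
    | mL a b c e s a' b' c' e' ha hb hc he h =>
      subst ha hb hc he
      obtain ⟨P, hP, hS⟩ := stpL a b c e s ((h 0).trans hβ)
      exact ⟨P, fun d => (hP d).le.trans (h d), hS⟩
  obtain ⟨P, hP, hS⟩ := this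
  exact ⟨P, hP, key P hP hS, hS⟩

theorem det_blocks {J : Type} [Fintype J] [DecidableEq J] {M : Matrix I I ℤ[X]}
    {Y : Matrix J J ℤ[X]} (hM : IsUnit (1 - M).det) (hY : IsUnit (1 - Y).det) :
    IsUnit (1 - Matrix.fromBlocks M 0 0 Y).det := by
  have e : (1 - Matrix.fromBlocks M 0 0 Y : Matrix (I ⊕ J) (I ⊕ J) ℤ[X]) =
      Matrix.fromBlocks (1 - M) 0 0 (1 - Y) := by
    rw [← Matrix.fromBlocks_one]
    ext1 a b
    rcases a with a | a
    · rcases b with b | b
      · rfl
      · exact sub_zero _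
    · rcases b with b | b
      · exact sub_zero _
      · rfl
  rw [e, Matrix.det_fromBlocks_zero₂₁]
  exact hM.mul hY

/-- a chain of moves next to a small matrix -/
theorem relE_chain {β : ℕ → ℤ} (hβ : β 0 ≤ 0) {q q' : Q4} (h : Relation.ReflTransGen (Mv β) q q')
    (hq : IsUnit (1 - q.E).det) :
    IsUnit (1 - q'.E).det ∧ ∃ Dl : ℕ, ∀ κ : WFG.Num, κ.Ok → ∀ (I : Type) [Fintype I] [DecidableEq I]
      (M : Matrix I I ℤ[X]), IsUnit (1 - M).det →
      (∀ d, d ≤ Dl → β d + 2 * (rm M d : ℤ) ≤ κ.p.coeff d) →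
      (∀ d, 2 * (rm M d : ℤ) ≤ κ.p.coeff d) →
      (∃ w, Leg κ (Matrix.fromBlocks M 0 0 q.E) w) →
      RelE κ (Matrix.fromBlocks M 0 0 q.E) (Matrix.fromBlocks M 0 0 q'.E) ∧
        ∃ w, Leg κ (Matrix.fromBlocks M 0 0 q'.E) w := by
  induction h with
  | refl =>
    refine ⟨hq, 0, fun κ hκ I _ _ M hM _ _ hL => ⟨?_, hL⟩⟩
    exact RelE.refl hκ (det_blocks hM hq)
  | @tail b c _ hbc ih =>
    obtain ⟨hb, Dl, hD⟩ := ih
    have hc : IsUnit (1 - c.E).det := by
      rw [hbc.det]
      exact hb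
    obtain ⟨P, hP, hP0, w, w', x, u, h1, h2, h3, h4, h5, h6, h7⟩ := hbc.stp hβ
    refine ⟨hc, max Dl P.natDegree, fun κ hκ I _ _ M hM hr hr0 hL => ?_⟩
    obtain ⟨hR, hLb⟩ := hD κ hκ I M hM (fun d hd => hr d (hd.trans (le_max_left _ _))) hr0 hL
    have room : ∀ d, P.coeff d + 2 * (rm M d : ℤ) ≤ κ.p.coeff d := by
      intro d
      by_cases hd : d ≤ P.natDegree
      · exact (add_le_add_left (hP d) _).trans (hr d (hd.trans (le_max_right _ _)))
      · rw [Polynomial.coeff_eq_zero_of_natDegree_lt (by omega), zero_add]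
        exact hr0 d
    obtain ⟨m, hm⟩ := exists_rowmax M
    have hL' := leg_ext hκ hm h2 h4 room
    refine ⟨hR.trans hκ hLb ?_, _, hL'⟩
    exact relE_add hκ hM hb w w' P h1 h2 h3 h4 x u h5 h6 h7 room

end Pool.Agent.WFS.Rot
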